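import Pool.Agent.H.MP_5cc280_co.Sf.Gg

namespace MP5cc280.Nm.Sf

open Finset

private theorem sa_part (P T m : ℕ) : ∑ k ∈ range (m + 1), (-1 : ℝ) ^ k *
    ((T + 1).choose k : ℝ) * ((P : ℝ) + 1 + 2 * k) * ((P + k).factorial : ℝ) /
      ((P + 1 + (T + 1) + k).factorial : ℝ) =
    (-1) ^ m * (T.choose m : ℝ) * ((P + 1 + m).factorial : ℝ) /
      ((P + 1 + (T + 1) + m).factorial : ℝ) := by
  induction m with
  | zero =>
    simp [Nat.factorial_succ]
  | succ m ih =>
    rw [sum_range_succ, ih]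
    have hc : ((m : ℝ) + 1) * (T.choose (m + 1) : ℝ) = ((T : ℝ) - m) * (T.choose m : ℝ) := by
      have h := Nat.choose_succ_right_eq T m
      rcases le_or_gt m T with hm | hm
      · have h' : ((T.choose (m + 1) * (m + 1) : ℕ) : ℝ) = ((T.choose m * (T - m) : ℕ) : ℝ) := by
          rw [h]
        push_cast [Nat.cast_sub hm] at h'
        linarith
      · rw [Nat.choose_eq_zero_of_lt hm, Nat.choose_eq_zero_of_lt (by omega)]
        simp
    have e1 : ((P + 1 + (T + 1) + (m + 1)).factorial : ℝ) =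
        ((P : ℝ) + T + m + 3) * ((P + 1 + (T + 1) + m).factorial : ℝ) := by
      rw [show P + 1 + (T + 1) + (m + 1) = (P + 1 + (T + 1) + m) + 1 by ring,
        Nat.factorial_succ]
      push_cast
      ring
    have e2 : ((P + 1 + (m + 1)).factorial : ℝ) =
        ((P : ℝ) + m + 2) * ((P + 1 + m).factorial : ℝ) := by
      rw [show P + 1 + (m + 1) = (P + 1 + m) + 1 by ring, Nat.factorial_succ]
      push_cast
      ring
    have e3 : P + (m + 1) = P + 1 + m := by ring
    have e4 : ((T + 1).choose (m + 1) : ℝ) = (T.choose m : ℝ) + (T.choose (m + 1) : ℝ) := by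
      rw [Nat.choose_succ_succ]
      push_cast
      ring
    rw [e1, e2, e3, e4]
    have hG : ((P + 1 + (T + 1) + m).factorial : ℝ) ≠ 0 := by positivity
    have hH : (P : ℝ) + T + m + 3 ≠ 0 := by positivity
    generalize ((P + 1 + (T + 1) + m).factorial : ℝ) = G at hG ⊢
    generalize ((P + 1 + m).factorial : ℝ) = F
    generalize (T.choose m : ℝ) = c at hc ⊢
    generalize (T.choose (m + 1) : ℝ) = d at hc ⊢
    rw [pow_succ]
    generalize (-1 : ℝ) ^ m = w
    push_cast
    field_simp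
    linear_combination (-F * w) * hc

private theorem sa_inner (P T : ℕ) : ∑ k ∈ range (T + 1), (-1 : ℝ) ^ k *
    (T.choose k : ℝ) * ((P : ℝ) + 1 + 2 * k) * ((P + k).factorial : ℝ) /
      ((P + 1 + T + k).factorial : ℝ) = if T = 0 then 1 else 0 := by
  cases T with
  | zero =>
    have h : (P.factorial : ℝ) ≠ 0 := by positivity
    have h' : (P : ℝ) + 1 ≠ 0 := by positivity
    simp [Nat.factorial_succ]
    exact ⟨h', Nat.factorial_ne_zero P⟩
  | succ T =>
    rw [sa_part, Nat.choose_succ_self]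
    simp

theorem orth (a j t t' : ℕ) (ht : t ≤ j) (ht' : t' ≤ j) (ha : 2 * j < a) :
    ∑ i ∈ range (j + 1), (-1 : ℝ) ^ (t' + i) * (i.choose t : ℝ) * (t'.choose i : ℝ) *
      ((a : ℝ) - 2 * i) * ((a - t' - i - 1).factorial : ℝ) / ((a - i - t).factorial : ℝ) =
      if t = t' then 1 else 0 := by
  rcases lt_or_ge t' t with h | h
  · rw [if_neg (by omega)]
    refine sum_eq_zero fun i _ => ?_
    rcases lt_or_ge i t with h1 | h1
    · rw [Nat.choose_eq_zero_of_lt h1]
      simp
    · rw [Nat.choose_eq_zero_of_lt (show t' < i by omega)]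
      simp
  obtain ⟨T, rfl⟩ := Nat.exists_eq_add_of_le h
  obtain ⟨P, hP⟩ : ∃ P, a = 2 * (t + T) + P + 1 := ⟨a - 2 * (t + T) - 1, by omega⟩
  obtain ⟨u, hu⟩ := Nat.exists_eq_add_of_le ht'
  have e0 : ∑ i ∈ range (j + 1), (-1 : ℝ) ^ (t + T + i) * (i.choose t : ℝ) *
      ((t + T).choose i : ℝ) * ((a : ℝ) - 2 * i) * ((a - (t + T) - i - 1).factorial : ℝ) /
        ((a - i - t).factorial : ℝ) =
      ∑ i ∈ range (t + T + 1), (-1 : ℝ) ^ (t + T + i) * (i.choose t : ℝ) *
      ((t + T).choose i : ℝ) * ((a : ℝ) - 2 * i) * ((a - (t + T) - i - 1).factorial : ℝ) /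
        ((a - i - t).factorial : ℝ) := by
    rw [hu, show t + T + u + 1 = (t + T + 1) + u by ring, sum_range_add]
    rw [add_eq_left]
    refine sum_eq_zero fun x _ => ?_
    rw [Nat.choose_eq_zero_of_lt (show t + T < t + T + 1 + x by omega)]
    simp
  rw [e0, ← Finset.sum_flip]
  have e1 : ∀ k ∈ range (t + T + 1), (-1 : ℝ) ^ (t + T + (t + T - k)) *
      ((t + T - k).choose t : ℝ) * ((t + T).choose (t + T - k) : ℝ) *
      ((a : ℝ) - 2 * ((t + T - k : ℕ) : ℝ)) *
        ((a - (t + T) - (t + T - k) - 1).factorial : ℝ) /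
        ((a - (t + T - k) - t).factorial : ℝ) =
      ((t + T).choose t : ℝ) * ((-1 : ℝ) ^ k * (T.choose k : ℝ) * ((P : ℝ) + 1 + 2 * k) *
        ((P + k).factorial : ℝ) / ((P + 1 + T + k).factorial : ℝ)) := by
    intro k hk
    have hk' : k ≤ t + T := by
      rw [mem_range] at hk
      omega
    rcases lt_or_ge T k with h1 | h1
    · rw [Nat.choose_eq_zero_of_lt h1, Nat.choose_eq_zero_of_lt (show t + T - k < t by omega)]
      simp
    · obtain ⟨v, rfl⟩ := Nat.exists_eq_add_of_le h1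
      have h2 : (t + (k + v)).choose (t + v) * (t + v).choose t =
          (t + (k + v)).choose t * (k + v).choose k := by
        rw [Nat.choose_mul (show t ≤ t + v by omega), Nat.add_sub_cancel_left,
          Nat.add_sub_cancel_left, ← Nat.choose_symm_add]
      have h2' : ((t + (k + v)).choose (t + v) : ℝ) * ((t + v).choose t : ℝ) =
          ((t + (k + v)).choose t : ℝ) * ((k + v).choose k : ℝ) := by
        exact_mod_cast h2
      have h3 : t + (k + v) - k = t + v := by omega
      have h4 : (-1 : ℝ) ^ (t + (k + v) + (t + v)) = (-1) ^ k := by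
        rw [show t + (k + v) + (t + v) = 2 * (t + v) + k by ring, pow_add, pow_mul]
        simp
      rw [h3, h4, show a - (t + (k + v)) - (t + v) - 1 = P + k by omega,
        show a - (t + v) - t = P + 1 + (k + v) + k by omega, ← mul_div_assoc]
      congr 1
      have h5 : (a : ℝ) - 2 * ((t + v : ℕ) : ℝ) = (P : ℝ) + 1 + 2 * k := by
        rw [hP]
        push_cast
        ring
      rw [h5]
      linear_combination ((P : ℝ) + 1 + 2 * k) * (-1) ^ k * ((P + k).factorial : ℝ) * h2'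
  rw [sum_congr rfl e1, ← mul_sum]
  have e2 : ∑ k ∈ range (t + T + 1), (-1 : ℝ) ^ k * (T.choose k : ℝ) * ((P : ℝ) + 1 + 2 * k) *
        ((P + k).factorial : ℝ) / ((P + 1 + T + k).factorial : ℝ) =
      ∑ k ∈ range (T + 1), (-1 : ℝ) ^ k * (T.choose k : ℝ) * ((P : ℝ) + 1 + 2 * k) *
        ((P + k).factorial : ℝ) / ((P + 1 + T + k).factorial : ℝ) := by
    rw [show t + T + 1 = (T + 1) + t by ring, sum_range_add]
    rw [add_eq_left]
    refine sum_eq_zero fun x _ => ?_
    rw [Nat.choose_eq_zero_of_lt (show T < T + 1 + x by omega)]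
    simp
  rw [e2, sa_inner]
  rcases Nat.eq_zero_or_pos T with rfl | hT
  · simp
  · rw [if_neg (by omega), if_neg (by omega), mul_zero]

private theorem sa_len : ∀ (ms : List ℕ), (∀ m ∈ ms, 1 ≤ m) → ms.length ≤ ms.sum
  | [], _ => by simp
  | m :: ms, h => by
    have h1 := sa_len ms fun x hx => h x (List.mem_cons_of_mem m hx)
    have h2 := h m List.mem_cons_self
    rw [List.length_cons, List.sum_cons]
    omega

theorem exists_al (ms : List ℕ) (hpos : ∀ m ∈ ms, 1 ≤ m) (q : ℕ) (hq : 1 ≤ q) :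
    ∃ al : ℕ → ℝ, (∀ i, 0 ≤ al i) ∧ ∀ t ≤ ms.length, ∑ i ∈ range (ms.length + 1),
      al i * ((i.choose t : ℝ) * ((q + ms.length + ms.sum - i).descFactorial t : ℝ)) =
        (es ms t : ℝ) := by
  have hlen := sa_len ms hpos
  obtain ⟨j, hj⟩ : ∃ j, j = ms.length := ⟨_, rfl⟩
  obtain ⟨a, ha⟩ : ∃ a, a = q + ms.length + ms.sum := ⟨_, rfl⟩
  rw [← ha, ← hj]
  rw [← hj] at hlen ha
  have ha2 : 2 * j < a := by omega
  refine ⟨fun i => if i ≤ j then ((a : ℝ) - 2 * i) / ((a - i).factorial : ℝ) *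
    ∑ t ∈ range (j + 1), (-1 : ℝ) ^ (t + i) * (t.choose i : ℝ) *
      ((a - t - i - 1).factorial : ℝ) * (es ms t : ℝ) else 0, ?_, ?_⟩
  · intro i
    show 0 ≤ (if i ≤ j then ((a : ℝ) - 2 * i) / ((a - i).factorial : ℝ) *
      ∑ t ∈ range (j + 1), (-1 : ℝ) ^ (t + i) * (t.choose i : ℝ) *
        ((a - t - i - 1).factorial : ℝ) * (es ms t : ℝ) else 0)
    split_ifs with hi
    · refine mul_nonneg (div_nonneg ?_ (by positivity)) ?_
      · have h1 : ((2 * i : ℕ) : ℝ) ≤ (a : ℝ) := by
          exact_mod_cast (show 2 * i ≤ a by omega)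
        push_cast at h1
        linarith
      · have h1 := zz_nonneg ms hpos i (a - i - 1 - j) (hj ▸ hi) (by rw [← hj]; omega)
        rw [← hj] at h1
        refine h1.trans (le_of_eq (sum_congr rfl fun t ht => ?_))
        rw [mem_range] at ht
        rw [show a - i - 1 - j + j - t = a - t - i - 1 by omega]
    · exact le_rfl
  · intro t ht
    have e1 : ∀ i ∈ range (j + 1), (if i ≤ j then ((a : ℝ) - 2 * i) / ((a - i).factorial : ℝ) *
        ∑ t' ∈ range (j + 1), (-1 : ℝ) ^ (t' + i) * (t'.choose i : ℝ) *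
          ((a - t' - i - 1).factorial : ℝ) * (es ms t' : ℝ) else 0) *
          ((i.choose t : ℝ) * ((a - i).descFactorial t : ℝ)) =
        ∑ t' ∈ range (j + 1), (es ms t' : ℝ) * ((-1 : ℝ) ^ (t' + i) * (i.choose t : ℝ) *
          (t'.choose i : ℝ) * ((a : ℝ) - 2 * i) * ((a - t' - i - 1).factorial : ℝ) /
            ((a - i - t).factorial : ℝ)) := by
      intro i hi
      rw [mem_range] at hi
      rw [if_pos (by omega), mul_sum, sum_mul]
      refine sum_congr rfl fun t' _ => ?_
      have h1 : ((a - i - t).factorial : ℝ) * ((a - i).descFactorial t : ℝ) =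
          ((a - i).factorial : ℝ) := by
        exact_mod_cast Nat.factorial_mul_descFactorial (show t ≤ a - i by omega)
      have h2 : ((a - i).factorial : ℝ) ≠ 0 := by positivity
      have h3 : ((a - i - t).factorial : ℝ) ≠ 0 := by positivity
      rw [div_mul_eq_mul_div, div_mul_eq_mul_div, ← mul_div_assoc, div_eq_div_iff h2 h3, ← h1]
      ring
    show ∑ i ∈ range (j + 1), (if i ≤ j then ((a : ℝ) - 2 * i) / ((a - i).factorial : ℝ) *
        ∑ t' ∈ range (j + 1), (-1 : ℝ) ^ (t' + i) * (t'.choose i : ℝ) *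
          ((a - t' - i - 1).factorial : ℝ) * (es ms t' : ℝ) else 0) *
          ((i.choose t : ℝ) * ((a - i).descFactorial t : ℝ)) = (es ms t : ℝ)
    rw [sum_congr rfl e1, sum_comm]
    have e2 : ∀ t' ∈ range (j + 1), ∑ i ∈ range (j + 1), (es ms t' : ℝ) *
        ((-1 : ℝ) ^ (t' + i) * (i.choose t : ℝ) * (t'.choose i : ℝ) * ((a : ℝ) - 2 * i) *
          ((a - t' - i - 1).factorial : ℝ) / ((a - i - t).factorial : ℝ)) =
        if t = t' then (es ms t' : ℝ) else 0 := by
      intro t' ht'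
      rw [mem_range] at ht'
      rw [← mul_sum, orth a j t t' ht (by omega) ha2]
      split_ifs
      · rw [mul_one]
      · rw [mul_zero]
    rw [sum_congr rfl e2, sum_ite_eq, if_pos (mem_range.2 (by omega))]

end MP5cc280.Nm.Sf
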