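import Pool.Agent.H.MP_5cc280_co.Nm.Up

/-!
# Complements of star forests: definitions
-/

namespace MP5cc280.Nm.Sf

open Finset SimpleGraph

section

variable {V : Type*} [DecidableEq V] (G : SimpleGraph V) [DecidableRel G.Adj]

/-- the sum of `F` over the ordered `m`-cliques in `R`; `F` is evaluated at the set of the common
neighbours of the clique in `T` -/
noncomputable def lv : ℕ → (Finset V → ℝ) → Finset V → Finset V → ℝ
  | 0, F, _, T => F T
  | m + 1, F, R, T => ∑ y ∈ R, lv m F (nb G R y) (nb G T y)

/-- the number of homomorphisms of the graph with a clique of centres, `m` leaves for each centre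
(`m` in the list) and `q` other vertices, in which a leaf is adjacent to all but its centre -/
noncomputable def sf : List ℕ → ℕ → Finset V → ℝ
  | [], q, S => (hh G q S : ℝ)
  | m :: ms, q, S => ∑ x ∈ S, lv G m (fun T => sf ms q T) S (nb G S x)

/-- the weighted number of exact configurations: `t` centres with at least one leaf each, `t + c`
leaves, each not adjacent to its centre, and `f` other vertices -/
noncomputable def EE (f : ℕ) : ℕ → ℕ → Finset V → ℝ
  | 0, 0, S => (hh G f S : ℝ)
  | 0, _ + 1, _ => 0
  | t + 1, c, S => ∑ l ∈ range (c + 1),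
      (∑ x ∈ S, lv G (l + 1) (fun T => EE f t (c - l) T) (nn G S x) (nb G S x)) /
        ((l + 1).factorial : ℝ)

/-- families of counts with one more free vertex -/
def Nice (F : ℕ → Finset V → ℝ) : Prop := ∀ q S, F (q + 1) S = ∑ x ∈ S, F q (nb G S x)

end

/-- elementary symmetric functions -/
def es : List ℕ → ℕ → ℕ
  | _, 0 => 1
  | [], _ + 1 => 0
  | m :: ms, t + 1 => es ms (t + 1) + m * es ms t

/-- `ggL ms p = ∑ t, (-1)^t es ms t (p + |ms| - t)!` -/
def ggL : List ℕ → ℕ → ℤ
  | [], p => (p.factorial : ℤ)
  | m :: ms, p => ggL ms (p + 1) - m * ggL ms p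

end MP5cc280.Nm.Sf
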