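import Pool.Agent.H.MP_5cc280_co.Sf.Def

namespace MP5cc280.Nm.Sf

open Finset

private def gg_rem : List ℕ → (List ℕ → ℤ) → ℤ
  | [], _ => 0
  | m :: ms, F => F ms + gg_rem ms (fun l => F (m :: l))

private theorem gg_rem_sub (ms : List ℕ) : ∀ (c : ℤ) (F G : List ℕ → ℤ),
    gg_rem ms (fun l => F l - c * G l) = gg_rem ms F - c * gg_rem ms G := by
  induction ms with
  | nil =>
    intro c F G
    simp only [gg_rem]
    ring
  | cons m ms ih =>
    intro c F G
    simp only [gg_rem]
    rw [ih c (fun l => F (m :: l)) (fun l => G (m :: l))]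
    ring

private theorem gg_R (ms : List ℕ) : ∀ p : ℕ,
    ggL ms (p + 1) = ((p : ℤ) + 1) * ggL ms p + gg_rem ms (fun l => ggL l (p + 1)) := by
  induction ms with
  | nil =>
    intro p
    simp only [ggL, gg_rem, add_zero]
    rw [Nat.factorial_succ]
    push_cast
    ring
  | cons m ms ih =>
    intro p
    have h1 := ih (p + 1)
    have h2 := ih p
    have h3 := gg_rem_sub ms (m : ℤ) (fun l => ggL l (p + 1 + 1)) (fun l => ggL l (p + 1))
    simp only [ggL, gg_rem]
    rw [h3]
    push_cast at h1
    linear_combination h1 - (m : ℤ) * h2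

private theorem gg_rem_nonneg (ms : List ℕ) : (∀ m ∈ ms, 1 ≤ m) → ∀ F : List ℕ → ℤ,
    (∀ l : List ℕ, l.length + 1 = ms.length → l.sum + 1 ≤ ms.sum → (∀ m ∈ l, 1 ≤ m) → 0 ≤ F l) →
    0 ≤ gg_rem ms F := by
  induction ms with
  | nil =>
    intro _ F _
    simp only [gg_rem]
    exact le_refl _
  | cons m ms ih =>
    intro hpos F hF
    simp only [gg_rem]
    have hm : 1 ≤ m := hpos m (by simp)
    have hms : ∀ x ∈ ms, 1 ≤ x := fun x hx => hpos x (by simp [hx])
    have h1 : 0 ≤ F ms := hF ms (by simp) (by simp only [List.sum_cons]; omega) hms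
    have h2 : 0 ≤ gg_rem ms (fun l => F (m :: l)) := by
      refine ih hms _ fun l h3 h4 h5 => ?_
      refine hF (m :: l) ?_ ?_ ?_
      · simp only [List.length_cons]
        omega
      · simp only [List.sum_cons]
        omega
      · intro x hx
        rcases List.mem_cons.1 hx with rfl | hx
        · exact hm
        · exact h5 x hx
    exact add_nonneg h1 h2

private theorem gg_len (ms : List ℕ) : (∀ m ∈ ms, 1 ≤ m) → ms.length ≤ ms.sum := by
  induction ms with
  | nil =>
    intro _
    exact le_refl _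
  | cons m ms ih =>
    intro h
    have hm : 1 ≤ m := h m (by simp)
    have h1 := ih fun x hx => h x (by simp [hx])
    simp only [List.length_cons, List.sum_cons]
    omega

private theorem gg_nn (n : ℕ) : ∀ ms : List ℕ, ms.length = n → (∀ m ∈ ms, 1 ≤ m) → ∀ p : ℕ,
    ms.sum ≤ p + ms.length → 0 ≤ ggL ms p := by
  induction n using Nat.strong_induction_on with
  | _ n ih =>
    intro ms hn hpos p h
    cases ms with
    | nil =>
      simp only [ggL]
      exact Nat.cast_nonneg _
    | cons m ms =>
      have hm : 1 ≤ m := hpos m (by simp)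
      have hms : ∀ x ∈ ms, 1 ≤ x := fun x hx => hpos x (by simp [hx])
      have hl := gg_len ms hms
      simp only [List.length_cons, List.sum_cons] at h hn
      have h1 : 0 ≤ ggL ms p := ih ms.length (by omega) ms rfl hms p (by omega)
      have h2 : 0 ≤ gg_rem ms (fun l => ggL l (p + 1)) := by
        refine gg_rem_nonneg ms hms _ fun l h3 h4 h5 => ?_
        exact ih l.length (by omega) l rfl h5 (p + 1) (by omega)
      have h3 : (0 : ℤ) ≤ (p : ℤ) + 1 - m := by
        have h4 : m ≤ p + 1 := by omega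
        have h5 : (m : ℤ) ≤ (p : ℤ) + 1 := by exact_mod_cast h4
        linarith
      have h6 : ggL (m :: ms) p = ((p : ℤ) + 1 - m) * ggL ms p + gg_rem ms (fun l => ggL l (p + 1)) := by
        simp only [ggL]
        rw [gg_R ms p]
        ring
      rw [h6]
      exact add_nonneg (mul_nonneg h3 h1) h2

private def gg_Z : List ℕ → List ℕ → ℕ → ℕ → ℤ
  | acc, [], 0, p => ggL acc p
  | _, [], _ + 1, _ => 0
  | acc, m :: ms, 0, p => gg_Z (m :: acc) ms 0 p
  | acc, m :: ms, i + 1, p => gg_Z (m :: acc) ms (i + 1) p + m * gg_Z acc ms i p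

private theorem gg_Z_nonneg (ms : List ℕ) : ∀ (acc : List ℕ) (i p : ℕ), (∀ m ∈ acc, 1 ≤ m) →
    (∀ m ∈ ms, 1 ≤ m) → acc.sum + ms.sum ≤ p + acc.length + ms.length →
    0 ≤ gg_Z acc ms i p := by
  induction ms with
  | nil =>
    intro acc i p ha _ h
    cases i with
    | zero =>
      simp only [gg_Z]
      simp only [List.sum_nil, List.length_nil, add_zero] at h
      exact gg_nn acc.length acc rfl ha p h
    | succ i =>
      simp only [gg_Z]
      exact le_refl _
  | cons m ms ih =>
    intro acc i p ha hpos h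
    have hm : 1 ≤ m := hpos m (by simp)
    have hms : ∀ x ∈ ms, 1 ≤ x := fun x hx => hpos x (by simp [hx])
    have ha' : ∀ x ∈ m :: acc, 1 ≤ x := by
      intro x hx
      rcases List.mem_cons.1 hx with rfl | hx
      · exact hm
      · exact ha x hx
    simp only [List.length_cons, List.sum_cons] at h
    have h1 : ∀ j, 0 ≤ gg_Z (m :: acc) ms j p := fun j => ih (m :: acc) j p ha' hms (by
      simp only [List.length_cons, List.sum_cons]
      omega)
    cases i with
    | zero =>
      simp only [gg_Z]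
      exact h1 0
    | succ i =>
      simp only [gg_Z]
      exact add_nonneg (h1 _) (mul_nonneg (Nat.cast_nonneg _) (ih acc i p ha hms (by omega)))

private theorem gg_es0 (ms : List ℕ) : es ms 0 = 1 := by
  cases ms <;> simp [es]

private theorem gg_es (ms : List ℕ) : ∀ t, ms.length < t → es ms t = 0 := by
  induction ms with
  | nil =>
    intro t ht
    cases t with
    | zero => exact absurd ht (by simp)
    | succ t => simp [es]
  | cons m ms ih =>
    intro t ht
    cases t with
    | zero => exact absurd ht (by simp)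
    | succ t =>
      simp only [List.length_cons] at ht
      simp only [es]
      rw [ih (t + 1) (by omega), ih t (by omega)]
      simp

private theorem gg_step (m : ℕ) (acc ms : List ℕ) (i p : ℕ) :
    ∑ t ∈ range ((m :: ms).length + 1), (-1 : ℤ) ^ (t + i) * (t.choose i : ℤ) *
        (es (m :: ms) t : ℤ) * ggL acc (p + (m :: ms).length - t) =
      ∑ t ∈ range (ms.length + 1), ((-1 : ℤ) ^ (t + i) * (t.choose i : ℤ) * (es ms t : ℤ) *
        (ggL (m :: acc) (p + ms.length - t) + m * ggL acc (p + ms.length - t)) +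
        (-1 : ℤ) ^ (t + 1 + i) * ((t + 1).choose i : ℤ) * (m * (es ms t : ℤ)) *
          ggL acc (p + ms.length - t)) := by
  have h1 : ∀ t ∈ range (ms.length + 1), (-1 : ℤ) ^ (t + i) * (t.choose i : ℤ) * (es ms t : ℤ) *
      (ggL (m :: acc) (p + ms.length - t) + m * ggL acc (p + ms.length - t)) =
      (-1 : ℤ) ^ (t + i) * (t.choose i : ℤ) * (es ms t : ℤ) *
        ggL acc (p + (ms.length + 1) - t) := by
    intro t ht
    rw [mem_range] at ht
    have h2 : p + (ms.length + 1) - t = (p + ms.length - t) + 1 := by omega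
    rw [h2]
    simp only [ggL]
    ring
  rw [sum_add_distrib, sum_congr rfl h1]
  have h3 : ∑ t ∈ range (ms.length + 1), (-1 : ℤ) ^ (t + i) * (t.choose i : ℤ) * (es ms t : ℤ) *
      ggL acc (p + (ms.length + 1) - t) =
      ∑ t ∈ range (ms.length + 1 + 1), (-1 : ℤ) ^ (t + i) * (t.choose i : ℤ) * (es ms t : ℤ) *
      ggL acc (p + (ms.length + 1) - t) := by
    rw [sum_range_succ _ (ms.length + 1), gg_es ms (ms.length + 1) (by omega)]
    simp
  rw [h3, List.length_cons, sum_range_succ', sum_range_succ' _ (ms.length + 1), gg_es0, gg_es0]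
  have h4 : ∀ t ∈ range (ms.length + 1), (-1 : ℤ) ^ (t + 1 + i) * ((t + 1).choose i : ℤ) *
      (es (m :: ms) (t + 1) : ℤ) * ggL acc (p + (ms.length + 1) - (t + 1)) =
      (-1 : ℤ) ^ (t + 1 + i) * ((t + 1).choose i : ℤ) * (es ms (t + 1) : ℤ) *
        ggL acc (p + (ms.length + 1) - (t + 1)) +
      (-1 : ℤ) ^ (t + 1 + i) * ((t + 1).choose i : ℤ) * (m * (es ms t : ℤ)) *
        ggL acc (p + ms.length - t) := by
    intro t ht
    rw [mem_range] at ht
    have h2 : p + (ms.length + 1) - (t + 1) = p + ms.length - t := by omega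
    rw [h2]
    simp only [es]
    push_cast
    ring
  rw [sum_congr rfl h4, sum_add_distrib]
  ring

private theorem gg_S (ms : List ℕ) : ∀ (acc : List ℕ) (i p : ℕ), gg_Z acc ms i p =
    ∑ t ∈ range (ms.length + 1), (-1 : ℤ) ^ (t + i) * (t.choose i : ℤ) * (es ms t : ℤ) *
      ggL acc (p + ms.length - t) := by
  induction ms with
  | nil =>
    intro acc i p
    cases i with
    | zero => simp [gg_Z, es]
    | succ i => simp [gg_Z, es]
  | cons m ms ih =>
    intro acc i p
    rw [gg_step]
    cases i with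
    | zero =>
      simp only [gg_Z]
      rw [ih]
      refine sum_congr rfl fun t _ => ?_
      simp only [Nat.choose_zero_right, Nat.cast_one, add_zero, pow_succ]
      ring
    | succ i =>
      simp only [gg_Z]
      rw [ih, ih, mul_sum, ← sum_add_distrib]
      refine sum_congr rfl fun t _ => ?_
      rw [Nat.choose_succ_succ]
      push_cast
      ring

theorem ggL_nonneg (ms : List ℕ) (hpos : ∀ m ∈ ms, 1 ≤ m) (p : ℕ)
    (h : ms.sum ≤ p + ms.length) : 0 ≤ ggL ms p := by
  exact gg_nn ms.length ms rfl hpos p h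

/-- a signed sum which is a sum of products of `ggL` over the subsets of size `i` -/
theorem zz_nonneg (ms : List ℕ) (hpos : ∀ m ∈ ms, 1 ≤ m) (i p : ℕ) (hi : i ≤ ms.length)
    (h : ms.sum ≤ p + ms.length) :
    0 ≤ ∑ t ∈ range (ms.length + 1), (-1 : ℝ) ^ (t + i) * (t.choose i : ℝ) *
      ((p + ms.length - t).factorial : ℝ) * (es ms t : ℝ) := by
  have h1 := gg_Z_nonneg ms [] i p (by simp) hpos (by simpa using h)
  rw [gg_S] at h1
  have h2 : (0 : ℝ) ≤ ((∑ t ∈ range (ms.length + 1), (-1 : ℤ) ^ (t + i) * (t.choose i : ℤ) *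
      (es ms t : ℤ) * ggL [] (p + ms.length - t) : ℤ) : ℝ) := by exact_mod_cast h1
  refine h2.trans (le_of_eq ?_)
  rw [Int.cast_sum]
  refine sum_congr rfl fun t _ => ?_
  simp only [ggL]
  push_cast
  ring

end MP5cc280.Nm.Sf
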