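import Pool.Agent.H.MP_5cc280_co.Sf.Def

namespace MP5cc280.Nm.Sf

open Finset SimpleGraph

/-- `A` and its complement are cliques, and every vertex outside `A` has at most one non-neighbour
(in `A`) -/
def St {ι : Type*} (Hp : SimpleGraph ι) (A : Set ι) : Prop :=
  (∀ a ∈ A, ∀ b ∈ A, a ≠ b → Hp.Adj a b) ∧ (∀ a ∉ A, ∀ b ∉ A, a ≠ b → Hp.Adj a b) ∧
    ∀ b ∉ A, ∀ a ∈ A, ∀ c ∈ A, ¬ Hp.Adj b a → ¬ Hp.Adj b c → a = c

/-- homomorphisms with prescribed sets of values -/
private abbrev hf_HR {κ V : Type} (H : SimpleGraph κ) (G : SimpleGraph V) (R : κ → Finset V) :=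
  {f : κ → V // (∀ i, f i ∈ R i) ∧ ∀ i j, H.Adj i j → G.Adj (f i) (f j)}

private theorem hf_tr {κ κ' V : Type} (e : κ ≃ κ') (H : SimpleGraph κ) (H' : SimpleGraph κ')
    (G : SimpleGraph V) (R : κ → Finset V) (R' : κ' → Finset V)
    (he : ∀ i j, H'.Adj (e i) (e j) ↔ H.Adj i j) (hR : ∀ i, R' (e i) = R i) :
    Nat.card (hf_HR H G R) = Nat.card (hf_HR H' G R') := by
  refine Nat.card_congr
    { toFun := fun f => ⟨fun i => f.1 (e.symm i), ?_, ?_⟩
      invFun := fun f => ⟨fun i => f.1 (e i), ?_, ?_⟩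
      left_inv := ?_
      right_inv := ?_ }
  · intro i
    have h := f.2.1 (e.symm i)
    rw [← hR, e.apply_symm_apply] at h
    exact h
  · intro i j hij
    refine f.2.2 _ _ ((he _ _).1 ?_)
    rw [e.apply_symm_apply, e.apply_symm_apply]
    exact hij
  · intro i
    rw [← hR]
    exact f.2.1 (e i)
  · intro i j hij
    exact f.2.2 _ _ ((he _ _).2 hij)
  · intro f
    apply Subtype.ext
    funext i
    show f.1 (e.symm (e i)) = f.1 i
    rw [e.symm_apply_apply]
  · intro f
    apply Subtype.ext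
    funext i
    show f.1 (e (e.symm i)) = f.1 i
    rw [e.apply_symm_apply]

open Classical in
/-- removal of a vertex -/
private theorem hf_rem {κ V : Type} [Fintype κ] [Fintype V]
    (H : SimpleGraph κ) (G : SimpleGraph V) [DecidableRel G.Adj] (R : κ → Finset V) (a : κ) :
    Nat.card (hf_HR H G R) = ∑ x ∈ R a,
      Nat.card (hf_HR (H.comap (Subtype.val : {c // c ≠ a} → κ)) G
        (fun c => if H.Adj a c.1 then nb G (R c.1) x else R c.1)) := by
  let F : hf_HR H G R → Σ x : {x // x ∈ R a},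
      hf_HR (H.comap (Subtype.val : {c // c ≠ a} → κ)) G
        (fun c => if H.Adj a c.1 then nb G (R c.1) x.1 else R c.1) := fun f =>
    ⟨⟨f.1 a, f.2.1 a⟩, ⟨fun c => f.1 c.1, fun c => by
      show f.1 c.1 ∈ (if H.Adj a c.1 then nb G (R c.1) (f.1 a) else R c.1)
      by_cases h : H.Adj a c.1
      · rw [if_pos h]
        exact mem_filter.2 ⟨f.2.1 c.1, f.2.2 a c.1 h⟩
      · rw [if_neg h]
        exact f.2.1 c.1, fun c d h => f.2.2 c.1 d.1 h⟩⟩
  have key : ∀ (x1 x2 : V) (h1 : x1 ∈ R a) (h2 : x2 ∈ R a) (g1 g2 : {c // c ≠ a} → V)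
      (p1 : (∀ i : {c // c ≠ a}, g1 i ∈ (if H.Adj a i.1 then nb G (R i.1) x1 else R i.1)) ∧
        ∀ c d, (H.comap (Subtype.val : {c // c ≠ a} → κ)).Adj c d → G.Adj (g1 c) (g1 d))
      (p2 : (∀ i : {c // c ≠ a}, g2 i ∈ (if H.Adj a i.1 then nb G (R i.1) x2 else R i.1)) ∧
        ∀ c d, (H.comap (Subtype.val : {c // c ≠ a} → κ)).Adj c d → G.Adj (g2 c) (g2 d)),
      x1 = x2 → g1 = g2 → (⟨⟨x1, h1⟩, ⟨g1, p1⟩⟩ : Σ x : {x // x ∈ R a},
        hf_HR (H.comap (Subtype.val : {c // c ≠ a} → κ)) G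
          (fun c => if H.Adj a c.1 then nb G (R c.1) x.1 else R c.1)) =
        ⟨⟨x2, h2⟩, ⟨g2, p2⟩⟩ := by
    rintro x1 x2 h1 h2 g1 g2 p1 p2 rfl rfl
    rfl
  have hF : Function.Bijective F := by
    constructor
    · intro f g hfg
      have h1 : f.1 a = g.1 a := congrArg (fun z : Σ x : {x // x ∈ R a},
        hf_HR (H.comap (Subtype.val : {c // c ≠ a} → κ)) G
          (fun c => if H.Adj a c.1 then nb G (R c.1) x.1 else R c.1) => (z.1.1 : V)) hfg
      have h2 : (fun c : {c // c ≠ a} => f.1 c.1) = fun c => g.1 c.1 :=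
        congrArg (fun z : Σ x : {x // x ∈ R a},
        hf_HR (H.comap (Subtype.val : {c // c ≠ a} → κ)) G
          (fun c => if H.Adj a c.1 then nb G (R c.1) x.1 else R c.1) => z.2.1) hfg
      apply Subtype.ext
      funext i
      by_cases hi : i = a
      · rw [hi]
        exact h1
      · exact congrFun h2 ⟨i, hi⟩
    · rintro ⟨⟨x, hx⟩, ⟨g, hg1, hg2⟩⟩
      let f : κ → V := fun i => if h : i = a then x else g ⟨i, h⟩
      have fa : f a = x := dif_pos rfl
      have fc : ∀ c (h : c ≠ a), f c = g ⟨c, h⟩ := fun c h => dif_neg h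
      have hg3 : ∀ c (h : c ≠ a), g ⟨c, h⟩ ∈ R c ∧ (H.Adj a c → G.Adj x (g ⟨c, h⟩)) := by
        intro c h
        have h1 := hg1 ⟨c, h⟩
        by_cases h2 : H.Adj a c
        · simp only [if_pos h2] at h1
          exact ⟨(mem_filter.1 h1).1, fun _ => (mem_filter.1 h1).2⟩
        · simp only [if_neg h2] at h1
          exact ⟨h1, fun h3 => absurd h3 h2⟩
      have hfS : ∀ i, f i ∈ R i := by
        intro i
        by_cases hi : i = a
        · subst hi
          rw [fa]
          exact hx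
        · rw [fc i hi]
          exact (hg3 i hi).1
      have hfG : ∀ i j, H.Adj i j → G.Adj (f i) (f j) := by
        intro i j hij
        by_cases hi : i = a
        · have hj : j ≠ a := fun h => H.irrefl (by rw [hi, h] at hij; exact hij)
          rw [hi] at hij
          rw [hi, fa, fc j hj]
          exact (hg3 j hj).2 hij
        · by_cases hj : j = a
          · rw [hj] at hij
            rw [hj, fa, fc i hi]
            exact ((hg3 i hi).2 hij.symm).symm
          · rw [fc i hi, fc j hj]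
            exact hg2 _ _ hij
      refine ⟨⟨f, hfS, hfG⟩, ?_⟩
      exact key _ _ _ _ _ _ _ _ fa (funext fun c => fc c.1 c.2)
  rw [Nat.card_congr (Equiv.ofBijective F hF), Nat.card_sigma]
  exact sum_coe_sort (R a) fun x =>
    Nat.card (hf_HR (H.comap (Subtype.val : {c // c ≠ a} → κ)) G
      (fun c => if H.Adj a c.1 then nb G (R c.1) x else R c.1))

open Classical in
private noncomputable def hf_pk {κ V : Type} (L : Finset κ) (R T : Finset V) (c : κ) : Finset V :=
  @ite _ (c ∈ L) (Classical.propDecidable _) R T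

private theorem hf_pk_pos {κ V : Type} {L : Finset κ} (R T : Finset V) {c : κ} (h : c ∈ L) :
    hf_pk L R T c = R := if_pos h

private theorem hf_pk_neg {κ V : Type} {L : Finset κ} (R T : Finset V) {c : κ} (h : c ∉ L) :
    hf_pk L R T c = T := if_neg h

open Classical in
private theorem hf_lv {V : Type} [Fintype V] (G : SimpleGraph V) [DecidableRel G.Adj] (m : ℕ) :
    ∀ (κ : Type) [Fintype κ] (H : SimpleGraph κ) (L : Finset κ), L.card = m →
      (∀ b ∈ L, ∀ c, c ≠ b → H.Adj b c) → ∀ R T : Finset V,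
      (Nat.card (hf_HR H G (hf_pk L R T)) : ℝ) =
        lv G m (fun T' => (Nat.card (hf_HR (H.comap (Subtype.val : {c // c ∉ L} → κ)) G
          (fun _ => T')) : ℝ)) R T := by
  induction m with
  | zero =>
    intro κ _ H L hL _ R T
    have hL0 : L = ∅ := card_eq_zero.1 hL
    subst hL0
    show _ = (Nat.card (hf_HR (H.comap (Subtype.val : {c // c ∉ (∅ : Finset κ)} → κ)) G
          (fun _ => T)) : ℝ)
    congr 1
    refine hf_tr (Equiv.subtypeUnivEquiv (fun c => notMem_empty c)).symm _ _ G _ _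
      (fun i j => Iff.rfl) (fun i => ?_)
    exact (hf_pk_neg R T (notMem_empty _)).symm
  | succ m ih =>
    intro κ _ H L hL hadj R T
    obtain ⟨b, hb⟩ : L.Nonempty := card_pos.1 (by omega)
    rw [hf_rem H G _ b, hf_pk_pos R T hb]
    push_cast
    show _ = ∑ y ∈ R, lv G m _ (nb G R y) (nb G T y)
    refine sum_congr rfl fun y _ => ?_
    let L' : Finset {c // c ≠ b} := L.subtype (fun c => c ≠ b)
    have hL' : L'.card = m := by
      have h1 : L'.card = (L.filter (fun c => c ≠ b)).card := card_subtype _ _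
      rw [h1, filter_ne', card_erase_of_mem hb, hL]
      rfl
    have hmem : ∀ c : {c // c ≠ b}, c ∈ L' ↔ c.1 ∈ L := fun c => mem_subtype
    have h1 := ih {c // c ≠ b} (H.comap (Subtype.val : {c // c ≠ b} → κ)) L' hL'
      (fun c hc d hd => hadj c.1 ((hmem c).1 hc) d.1 (fun h => hd (Subtype.ext h)))
      (nb G R y) (nb G T y)
    have h2 : (fun c : {c // c ≠ b} => if H.Adj b c.1 then nb G (hf_pk L R T c.1) y else
        hf_pk L R T c.1) = hf_pk L' (nb G R y) (nb G T y) := by
      funext c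
      rw [if_pos (hadj b hb c.1 c.2)]
      by_cases h : c.1 ∈ L
      · rw [hf_pk_pos _ _ h, hf_pk_pos _ _ ((hmem c).2 h)]
      · rw [hf_pk_neg _ _ h, hf_pk_neg _ _ (fun h' => h ((hmem c).1 h'))]
    rw [h2, h1]
    congr 1
    funext T'
    congr 1
    refine hf_tr
      { toFun := fun c : {c : {c // c ≠ b} // c ∉ L'} =>
          (⟨c.1.1, fun h => c.2 ((hmem c.1).2 h)⟩ : {c // c ∉ L})
        invFun := fun c : {c // c ∉ L} =>
          (⟨⟨c.1, fun h => c.2 (h ▸ hb)⟩, fun h => c.2 ((hmem _).1 h)⟩ :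
            {c : {c // c ≠ b} // c ∉ L'})
        left_inv := fun c => rfl
        right_inv := fun c => rfl } _ _ G _ _ (fun i j => Iff.rfl) (fun i => rfl)

open Classical in
private theorem hf_main (n : ℕ) : ∀ (ι : Type) [Fintype ι] (Hp : SimpleGraph ι) (A : Set ι),
    Fintype.card ι = n → St Hp A → ∃ (ms : List ℕ) (q : ℕ), (∀ m ∈ ms, 1 ≤ m) ∧
      Fintype.card ι = q + ms.length + ms.sum ∧
      (∀ D : Finset ι, (∀ v ∈ D, ∀ w, w ≠ v → Hp.Adj v w) → D.card ≤ q) ∧
      ∀ (V : Type) [Fintype V] [DecidableEq V] (G : SimpleGraph V) [DecidableRel G.Adj]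
        (S : Finset V), (Nat.card (HomsIn Hp G S) : ℝ) = sf G ms q S := by
  induction n using Nat.strong_induction_on with
  | _ n ih =>
  intro ι _ Hp A hc hA
  obtain ⟨hA1, hA2, hA3⟩ := hA
  by_cases hex : ∃ a ∈ A, ∃ b, b ∉ A ∧ ¬ Hp.Adj a b
  · obtain ⟨a, ha, b, hb, hab⟩ := hex
    have hba : b ≠ a := fun h => hb (h ▸ ha)
    let κ : Type := {c : ι // c ≠ a}
    let L : Finset κ := univ.filter (fun c => ¬ Hp.Adj a c.1)
    have hmem : ∀ c : κ, c ∈ L ↔ ¬ Hp.Adj a c.1 := fun c => by simp [L]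
    have hLA : ∀ c : κ, c ∈ L → c.1 ∉ A := by
      intro c hcL hcA
      exact (hmem c).1 hcL (hA1 a ha c.1 hcA (fun h => c.2 h.symm))
    let H1 : SimpleGraph κ := Hp.comap Subtype.val
    have hadj : ∀ c ∈ L, ∀ d, d ≠ c → H1.Adj c d := by
      intro c hcL d hdc
      show Hp.Adj c.1 d.1
      have h1 : c.1 ≠ d.1 := fun h => hdc (Subtype.ext h.symm)
      by_cases hd : d.1 ∈ A
      · by_contra h2
        exact d.2 (hA3 c.1 (hLA c hcL) a ha d.1 hd (fun h => (hmem c).1 hcL h.symm) h2).symm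
      · exact hA2 c.1 (hLA c hcL) d.1 hd h1
    let ι2 : Type := {c : κ // c ∉ L}
    let H2 : SimpleGraph ι2 := H1.comap Subtype.val
    let A2 : Set ι2 := {c | c.1.1 ∈ A}
    have hSt : St H2 A2 := by
      refine ⟨fun u hu v hv huv => hA1 _ hu _ hv fun h => huv (Subtype.ext (Subtype.ext h)),
        fun u hu v hv huv => hA2 _ hu _ hv fun h => huv (Subtype.ext (Subtype.ext h)),
        fun u hu v hv w hw h1 h2 => Subtype.ext (Subtype.ext (hA3 _ hu _ hv _ hw h1 h2))⟩
    have hcard1 : Fintype.card κ + 1 = Fintype.card ι := by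
      have h1 : Fintype.card κ = Fintype.card ι - 1 := by
        show Fintype.card {c : ι // c ≠ a} = _
        rw [Fintype.card_subtype, filter_ne' univ a, card_erase_of_mem (mem_univ a), card_univ]
      have h2 : 0 < Fintype.card ι := Fintype.card_pos_iff.2 ⟨a⟩
      omega
    have hcard2 : Fintype.card ι2 + L.card = Fintype.card κ := by
      have h1 : Fintype.card ι2 = Fintype.card κ - L.card := by
        show Fintype.card {c : κ // c ∉ L} = _
        rw [Fintype.card_subtype_compl, Fintype.card_coe]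
      have h2 : L.card ≤ Fintype.card κ := card_le_univ L
      omega
    have hLpos : 1 ≤ L.card := card_pos.2 ⟨⟨b, hba⟩, (hmem _).2 hab⟩
    obtain ⟨ms, q, h1, h2, h3, h4⟩ := ih (Fintype.card ι2) (by omega) ι2 H2 A2 rfl hSt
    refine ⟨L.card :: ms, q, ?_, ?_, ?_, ?_⟩
    · intro m hm
      rcases List.mem_cons.1 hm with rfl | hm
      · exact hLpos
      · exact h1 m hm
    · rw [List.length_cons, List.sum_cons]
      omega
    · intro D hD
      have haD : a ∉ D := fun h => hab (hD a h b hba)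
      let D' : Finset ι2 := univ.filter (fun c => c.1.1 ∈ D)
      have hsub : D ⊆ D'.image (fun c => c.1.1) := by
        intro v hv
        have hva : v ≠ a := fun h => haD (h ▸ hv)
        have hvL : (⟨v, hva⟩ : κ) ∉ L := fun h =>
          (hmem _).1 h (hD v hv a hva.symm).symm
        refine mem_image.2 ⟨⟨⟨v, hva⟩, hvL⟩, ?_, rfl⟩
        simp only [D', mem_filter, mem_univ, true_and]
        exact hv
      refine (card_le_card hsub).trans (card_image_le.trans (h3 D' ?_))
      intro v hv w hwv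
      have hv' : v.1.1 ∈ D := (mem_filter.1 hv).2
      exact hD v.1.1 hv' w.1.1 fun h => hwv (Subtype.ext (Subtype.ext h))
    · intro V _ _ G _ S
      have e1 : (Nat.card (HomsIn Hp G S) : ℝ) =
          ∑ x ∈ S, (Nat.card (hf_HR H1 G (hf_pk L S (nb G S x))) : ℝ) := by
        have h5 := hf_rem Hp G (fun _ => S) a
        have h6 : Nat.card (HomsIn Hp G S) = Nat.card (hf_HR Hp G (fun _ => S)) := rfl
        rw [h6, h5]
        push_cast
        refine sum_congr rfl fun x _ => ?_
        congr 3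
        funext c
        by_cases h : Hp.Adj a c.1
        · rw [if_pos h, hf_pk_neg _ _ (fun h' => (hmem c).1 h' h)]
        · rw [if_neg h, hf_pk_pos _ _ ((hmem c).2 h)]
      rw [e1]
      show _ = ∑ x ∈ S, lv G L.card (fun T => sf G ms q T) S (nb G S x)
      refine sum_congr rfl fun x _ => ?_
      rw [hf_lv G L.card κ H1 L rfl hadj S (nb G S x)]
      congr 1
      funext T
      exact h4 V G T
  · have hall : ∀ a b, a ≠ b → Hp.Adj a b := by
      intro a b hab
      by_cases ha : a ∈ A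
      · by_cases hb : b ∈ A
        · exact hA1 a ha b hb hab
        · by_contra h
          exact hex ⟨a, ha, b, hb, h⟩
      · by_cases hb : b ∈ A
        · by_contra h
          exact hex ⟨b, hb, a, ha, fun h' => h h'.symm⟩
        · exact hA2 a ha b hb hab
    obtain ⟨q, j, h1, h2, h3⟩ := hom_zz n ι Hp hc (fun a b c hb hc h _ =>
      absurd (hall a b hb.symm) h)
    have h4 := h2 univ (fun v _ w hw => hall v w hw.symm)
    rw [card_univ] at h4
    have hj : j = 0 := by omega
    subst hj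
    refine ⟨[], q, by simp, by simpa using h1, h2, ?_⟩
    intro V _ _ G _ S
    rw [h3 V G S]
    rfl

theorem hom_sf (ι : Type) [Fintype ι] [DecidableEq ι] (Hp : SimpleGraph ι) (A : Set ι)
    (hA : St Hp A) : ∃ (ms : List ℕ) (q : ℕ), (∀ m ∈ ms, 1 ≤ m) ∧
      Fintype.card ι = q + ms.length + ms.sum ∧
      (∀ D : Finset ι, (∀ v ∈ D, ∀ w, w ≠ v → Hp.Adj v w) → D.card ≤ q) ∧
      ∀ (V : Type) [Fintype V] [DecidableEq V] (G : SimpleGraph V) [DecidableRel G.Adj]
        (S : Finset V), (Nat.card (HomsIn Hp G S) : ℝ) = sf G ms q S := by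
  have h := hf_main (Fintype.card ι) ι Hp A rfl hA
  exact h

end MP5cc280.Nm.Sf
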