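import Pool.Agent.H.MP_5cc280_co.Sf.Nice

namespace MP5cc280.Nm.Sf

open Finset SimpleGraph

private theorem lo_desc (a b p q : ℕ) :
    a.descFactorial p * b.descFactorial q ≤ (a + b).descFactorial (p + q) := by
  rcases Nat.lt_or_ge a p with h | h
  · rw [Nat.descFactorial_eq_zero_iff_lt.2 h, zero_mul]
    exact Nat.zero_le _
  · have h1 := Nat.descFactorial_mul_descFactorial (n := a + b) (k := p) (m := p + q)
      (Nat.le_add_right p q)
    rw [← h1, mul_comm, Nat.add_sub_cancel_left]
    exact Nat.mul_le_mul (Nat.descFactorial_le _ (by omega)) (Nat.descFactorial_le _ (by omega))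

private theorem lo_coef {m n t l c : ℕ} (hl : l < m) (hmn : m + t ≤ n) :
    (m.choose (l + 1) : ℝ) * ((n - m - t).descFactorial c : ℝ) ≤
      (m : ℝ) * ((n - (t + 1)).descFactorial (l + c) : ℝ) / ((l + 1).factorial : ℝ) := by
  have hpos : (0 : ℝ) < ((l + 1).factorial : ℝ) := by exact_mod_cast Nat.factorial_pos _
  rw [le_div_iff₀ hpos]
  obtain ⟨k, rfl⟩ : ∃ k, m = k + 1 := ⟨m - 1, by omega⟩
  have h1 : (k + 1).choose (l + 1) * (n - (k + 1) - t).descFactorial c * (l + 1).factorial =
      (k + 1) * (k.descFactorial l * (n - (k + 1) - t).descFactorial c) := by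
    have h2 := Nat.descFactorial_eq_factorial_mul_choose (k + 1) (l + 1)
    rw [Nat.succ_descFactorial_succ] at h2
    calc (k + 1).choose (l + 1) * (n - (k + 1) - t).descFactorial c * (l + 1).factorial =
          ((l + 1).factorial * (k + 1).choose (l + 1)) *
            (n - (k + 1) - t).descFactorial c := by ring
      _ = _ := by rw [← h2]; ring
  have h3 := lo_desc k (n - (k + 1) - t) l c
  have h4 : k + (n - (k + 1) - t) = n - (t + 1) := by omega
  rw [h4] at h3
  have h5 : (k + 1).choose (l + 1) * (n - (k + 1) - t).descFactorial c * (l + 1).factorial ≤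
      (k + 1) * (n - (t + 1)).descFactorial (l + c) := by
    rw [h1]
    exact Nat.mul_le_mul_left _ h3
  exact_mod_cast h5

private theorem lo_comb {m n N t : ℕ} (hmn : m + t ≤ n) (hN : n < N)
    (y : ℕ → ℕ → ℝ) (hy : ∀ l c, 0 ≤ y l c) :
    ∑ l ∈ range m, (m.choose (l + 1) : ℝ) *
        ∑ c ∈ range N, ((n - m - t).descFactorial c : ℝ) * y l (l + c) ≤
      m * ∑ c ∈ range N, ((n - (t + 1)).descFactorial c : ℝ) *
        ∑ l ∈ range (c + 1), y l c / ((l + 1).factorial : ℝ) := by
  obtain ⟨g, hg⟩ : ∃ g : ℕ → ℕ → ℝ, ∀ l c, g l c =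
      (m : ℝ) * ((n - (t + 1)).descFactorial c : ℝ) * (y l c / ((l + 1).factorial : ℝ)) :=
    ⟨fun l c => (m : ℝ) * ((n - (t + 1)).descFactorial c : ℝ) *
      (y l c / ((l + 1).factorial : ℝ)), fun _ _ => rfl⟩
  have hg0 : ∀ l c, 0 ≤ g l c := by
    intro l c
    rw [hg]
    have := hy l c
    positivity
  have h1 : ∀ l ∈ range m, (m.choose (l + 1) : ℝ) *
      ∑ c ∈ range N, ((n - m - t).descFactorial c : ℝ) * y l (l + c) ≤
      ∑ c ∈ range N, (if l ≤ c then g l c else 0) := by
    intro l hl
    rw [mem_range] at hl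
    have h2 : ∑ c ∈ range N, (if l ≤ c then g l c else 0) = ∑ c ∈ range (N - l), g l (l + c) := by
      rw [← sum_filter, ← sum_Ico_eq_sum_range]
      refine sum_congr ?_ fun _ _ => rfl
      ext c
      rw [mem_filter, mem_range, mem_Ico]
      tauto
    rw [h2, mul_sum]
    have h3 : ∑ c ∈ range N, (m.choose (l + 1) : ℝ) *
        (((n - m - t).descFactorial c : ℝ) * y l (l + c)) =
        ∑ c ∈ range (N - l), (m.choose (l + 1) : ℝ) *
        (((n - m - t).descFactorial c : ℝ) * y l (l + c)) := by
      symm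
      refine sum_subset (range_subset_range.2 (Nat.sub_le _ _)) fun c _ hc2 => ?_
      rw [mem_range, not_lt] at hc2
      have h4 : (n - m - t).descFactorial c = 0 :=
        Nat.descFactorial_eq_zero_iff_lt.2 (by omega)
      rw [h4]
      simp
    rw [h3]
    refine sum_le_sum fun c _ => ?_
    rw [hg, ← mul_assoc]
    calc (m.choose (l + 1) : ℝ) * ((n - m - t).descFactorial c : ℝ) * y l (l + c) ≤
          ((m : ℝ) * ((n - (t + 1)).descFactorial (l + c) : ℝ) / ((l + 1).factorial : ℝ)) *
            y l (l + c) := mul_le_mul_of_nonneg_right (lo_coef hl hmn) (hy _ _)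
      _ = _ := by ring
  refine (sum_le_sum h1).trans ?_
  rw [sum_comm, mul_sum]
  refine sum_le_sum fun c _ => ?_
  rw [← sum_filter]
  calc ∑ l ∈ range m with l ≤ c, g l c ≤ ∑ l ∈ range (c + 1), g l c := by
        refine sum_le_sum_of_subset_of_nonneg ?_ fun l _ _ => hg0 l c
        intro l hl
        rw [mem_filter] at hl
        rw [mem_range]
        omega
    _ = (m : ℝ) * (((n - (t + 1)).descFactorial c : ℝ) *
          ∑ l ∈ range (c + 1), y l c / ((l + 1).factorial : ℝ)) := by
        rw [← mul_assoc, mul_sum]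
        exact sum_congr rfl fun l _ => hg l c

private theorem lo_len {ms : List ℕ} (hpos : ∀ m ∈ ms, 1 ≤ m) : ms.length ≤ ms.sum := by
  induction ms with
  | nil => exact le_rfl
  | cons m ms ih =>
    rw [List.length_cons, List.sum_cons]
    have h1 := hpos m List.mem_cons_self
    have h2 := ih fun a ha => hpos a (List.mem_cons_of_mem _ ha)
    omega

variable {V : Type*} [DecidableEq V] (G : SimpleGraph V) [DecidableRel G.Adj]

/-- upper bound for the homomorphisms by the exact configurations -/
theorem sf_le (ms : List ℕ) (hpos : ∀ m ∈ ms, 1 ≤ m) (q N n : ℕ) (hn : ms.sum ≤ n)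
    (hN : n < N) (S : Finset V) :
    sf G ms q S ≤ ∑ t ∈ range (ms.length + 1), (es ms t : ℝ) *
      ∑ c ∈ range N, ((n - t).descFactorial c : ℝ) *
        EE G (q + ms.length + ms.sum - 2 * t - c) t c S := by
  induction ms generalizing q n S with
  | nil =>
    rw [List.length_nil, List.sum_nil, Nat.zero_add, range_one, sum_singleton]
    have h1 : ∑ c ∈ range N, ((n - 0).descFactorial c : ℝ) *
        EE G (q + 0 + 0 - 2 * 0 - c) 0 c S = (hh G q S : ℝ) := by
      rw [sum_eq_single_of_mem 0 (mem_range.2 (by omega))]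
      · rw [EE]
        simp
      · intro c _ hc
        obtain ⟨c, rfl⟩ := Nat.exists_eq_succ_of_ne_zero hc
        rw [EE, mul_zero]
    rw [h1, sf, es]
    simp
  | cons m ms ih =>
    have hm := hpos m List.mem_cons_self
    have hpos' : ∀ a ∈ ms, 1 ≤ a := fun a ha => hpos a (List.mem_cons_of_mem _ ha)
    have hlen := lo_len hpos'
    rw [List.sum_cons] at hn
    obtain ⟨D, hD⟩ : ∃ D : ℕ → ℝ, ∀ t, D t = ∑ c ∈ range N, ((n - t).descFactorial c : ℝ) *
        EE G (q + (m :: ms).length + (m :: ms).sum - 2 * t - c) t c S := ⟨_, fun _ => rfl⟩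
    have hD0 : ∀ t, 0 ≤ D t := by
      intro t
      rw [hD]
      exact sum_nonneg fun c _ => mul_nonneg (Nat.cast_nonneg _) (ee_nonneg G _ _ _ _)
    have ha : sf G ms (q + m + 1) S ≤ ∑ t ∈ range (ms.length + 1), (es ms t : ℝ) * D t := by
      refine (ih hpos' (q + m + 1) n (by omega) hN S).trans (le_of_eq ?_)
      refine sum_congr rfl fun t _ => ?_
      rw [hD]
      congr 1
      refine sum_congr rfl fun c _ => ?_
      rw [List.length_cons, List.sum_cons]
      have e1 : q + m + 1 + ms.length + ms.sum - 2 * t - c =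
          q + (ms.length + 1) + (m + ms.sum) - 2 * t - c := by omega
      rw [e1]
    have hx : ∀ l x, lv G (l + 1) (fun T => ∑ t ∈ range (ms.length + 1), (es ms t : ℝ) *
        ∑ c ∈ range N, ((n - m - t).descFactorial c : ℝ) *
          EE G (q + (m - (l + 1)) + ms.length + ms.sum - 2 * t - c) t c T)
          (nn G S x) (nb G S x) = ∑ t ∈ range (ms.length + 1), (es ms t : ℝ) *
        ∑ c ∈ range N, ((n - m - t).descFactorial c : ℝ) *
          lv G (l + 1) (fun T => EE G (q + (m - (l + 1)) + ms.length + ms.sum - 2 * t - c) t c T)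
            (nn G S x) (nb G S x) := by
      intro l x
      refine (lv_sum G (l + 1) (range (ms.length + 1)) (fun t => (es ms t : ℝ))
        (fun t T => ∑ c ∈ range N, ((n - m - t).descFactorial c : ℝ) *
          EE G (q + (m - (l + 1)) + ms.length + ms.sum - 2 * t - c) t c T) _ _).trans ?_
      refine sum_congr rfl fun t _ => ?_
      congr 1
      exact lv_sum G (l + 1) (range N) (fun c => ((n - m - t).descFactorial c : ℝ))
        (fun c T => EE G (q + (m - (l + 1)) + ms.length + ms.sum - 2 * t - c) t c T) _ _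
    have hb1 : ∀ l ∈ range m, (m.choose (l + 1) : ℝ) *
        ∑ x ∈ S, lv G (l + 1) (fun T => sf G ms (q + (m - (l + 1))) T) (nn G S x) (nb G S x) ≤
        ∑ t ∈ range (ms.length + 1), (es ms t : ℝ) * ((m.choose (l + 1) : ℝ) *
        ∑ c ∈ range N, ((n - m - t).descFactorial c : ℝ) * ∑ x ∈ S,
          lv G (l + 1) (fun T => EE G (q + (m - (l + 1)) + ms.length + ms.sum - 2 * t - c) t c T)
            (nn G S x) (nb G S x)) := by
      intro l _
      have h2 : ∀ x ∈ S, lv G (l + 1) (fun T => sf G ms (q + (m - (l + 1))) T) (nn G S x)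
          (nb G S x) ≤ ∑ t ∈ range (ms.length + 1), (es ms t : ℝ) *
        ∑ c ∈ range N, ((n - m - t).descFactorial c : ℝ) *
          lv G (l + 1) (fun T => EE G (q + (m - (l + 1)) + ms.length + ms.sum - 2 * t - c) t c T)
            (nn G S x) (nb G S x) := by
        intro x _
        rw [← hx l x]
        exact lv_mono G _ _ _ _ _ fun T _ => ih hpos' (q + (m - (l + 1))) (n - m) (by omega)
          (by omega) T
      refine (mul_le_mul_of_nonneg_left (sum_le_sum h2) (Nat.cast_nonneg _)).trans
        (le_of_eq ?_)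
      rw [sum_comm, mul_sum]
      refine sum_congr rfl fun t _ => ?_
      rw [← mul_sum, sum_comm, ← mul_assoc, mul_comm (m.choose (l + 1) : ℝ), mul_assoc]
      congr 2
      refine sum_congr rfl fun c _ => ?_
      rw [mul_sum]
    have hb : ∑ l ∈ range m, (m.choose (l + 1) : ℝ) *
        ∑ x ∈ S, lv G (l + 1) (fun T => sf G ms (q + (m - (l + 1))) T) (nn G S x) (nb G S x) ≤
        ∑ t ∈ range (ms.length + 1), (es ms t : ℝ) * ((m : ℝ) * D (t + 1)) := by
      refine (sum_le_sum hb1).trans ?_
      rw [sum_comm]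
      refine sum_le_sum fun t ht => ?_
      rw [mem_range] at ht
      rw [← mul_sum]
      refine mul_le_mul_of_nonneg_left ?_ (Nat.cast_nonneg _)
      have h3 := lo_comb (m := m) (n := n) (N := N) (t := t) (by omega) hN
        (fun l c => ∑ x ∈ S, lv G (l + 1) (fun T =>
          EE G (q + (m :: ms).length + (m :: ms).sum - 2 * (t + 1) - c) t (c - l) T)
            (nn G S x) (nb G S x))
        (fun l c => sum_nonneg fun x _ => lv_nonneg G _ _ _ _ fun T => ee_nonneg G _ _ _ _)
      refine le_trans (le_of_eq ?_) (h3.trans (le_of_eq ?_))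
      · refine sum_congr rfl fun l hl => ?_
        rw [mem_range] at hl
        congr 1
        refine sum_congr rfl fun c _ => ?_
        congr 1
        refine sum_congr rfl fun x _ => ?_
        rw [List.length_cons, List.sum_cons]
        have e1 : q + (m - (l + 1)) + ms.length + ms.sum - 2 * t - c =
            q + (ms.length + 1) + (m + ms.sum) - 2 * (t + 1) - (l + c) := by omega
        rw [e1, Nat.add_sub_cancel_left]
      · rw [hD]
        congr 1
    have hes : ∑ t ∈ range ((m :: ms).length + 1), (es (m :: ms) t : ℝ) * D t =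
        ∑ t ∈ range (ms.length + 1), (es ms t : ℝ) * D t +
          (es ms (ms.length + 1) : ℝ) * D (ms.length + 1) +
          ∑ t ∈ range (ms.length + 1), (es ms t : ℝ) * ((m : ℝ) * D (t + 1)) := by
      rw [List.length_cons, sum_range_succ', ← sum_range_succ (fun t => (es ms t : ℝ) * D t),
        sum_range_succ' (fun t => (es ms t : ℝ) * D t)]
      have e0 : es (m :: ms) 0 = 1 := by rw [es]
      have e0' : es ms 0 = 1 := by
        cases ms <;> rw [es]
      have e2 : ∀ t, (es (m :: ms) (t + 1) : ℝ) * D (t + 1) = (es ms (t + 1) : ℝ) * D (t + 1) +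
          (es ms t : ℝ) * ((m : ℝ) * D (t + 1)) := by
        intro t
        have e3 : es (m :: ms) (t + 1) = es ms (t + 1) + m * es ms t := by rw [es]
        rw [e3]
        push_cast
        ring
      rw [sum_congr rfl fun t _ => e2 t, sum_add_distrib, e0, e0']
      ring
    have hfin : ∑ t ∈ range ((m :: ms).length + 1), (es (m :: ms) t : ℝ) * D t =
        ∑ t ∈ range ((m :: ms).length + 1), (es (m :: ms) t : ℝ) *
      ∑ c ∈ range N, ((n - t).descFactorial c : ℝ) *
        EE G (q + (m :: ms).length + (m :: ms).sum - 2 * t - c) t c S :=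
      sum_congr rfl fun t _ => by rw [hD]
    rw [← hfin, hes, sf_expand]
    have h9 : 0 ≤ (es ms (ms.length + 1) : ℝ) * D (ms.length + 1) :=
      mul_nonneg (Nat.cast_nonneg _) (hD0 _)
    linarith

end MP5cc280.Nm.Sf
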