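import Pool.Agent.H.MP_5cc280_co.Sf.Def
import Pool.Agent.H.MP_5cc280_co.Nm.Com

namespace MP5cc280.Nm.Sf

open Finset SimpleGraph

variable {V : Type*} [DecidableEq V] (G : SimpleGraph V) [DecidableRel G.Adj]

theorem lv_comm (l : ℕ) (F : Finset V → ℝ) (R T : Finset V) :
    ∑ y ∈ T, lv G l F (nb G R y) (nb G T y) =
      lv G l (fun T' => ∑ y ∈ T', F (nb G T' y)) R T := by
  induction l generalizing R T with
  | zero => rfl
  | succ l ih =>
    calc ∑ y ∈ T, lv G (l + 1) F (nb G R y) (nb G T y)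
        = ∑ y ∈ T, ∑ z ∈ nb G R y, lv G l F (nb G (nb G R y) z) (nb G (nb G T y) z) := rfl
      _ = ∑ z ∈ R, ∑ y ∈ nb G T z, lv G l F (nb G (nb G R y) z) (nb G (nb G T y) z) := by
          refine sum_comm' ?_
          intro y z
          simp only [nb, mem_filter]
          constructor
          · rintro ⟨h1, h2, h3⟩; exact ⟨⟨h1, h3.symm⟩, h2⟩
          · rintro ⟨⟨h1, h3⟩, h2⟩; exact ⟨h1, h2, h3.symm⟩
      _ = ∑ z ∈ R, ∑ y ∈ nb G T z, lv G l F (nb G (nb G R z) y) (nb G (nb G T z) y) := by
          refine sum_congr rfl fun z _ => sum_congr rfl fun y _ => ?_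
          rw [nb_comm G R y z, nb_comm G T y z]
      _ = ∑ z ∈ R, lv G l (fun T' => ∑ y ∈ T', F (nb G T' y)) (nb G R z) (nb G T z) :=
          sum_congr rfl fun z _ => ih (nb G R z) (nb G T z)
      _ = lv G (l + 1) (fun T' => ∑ y ∈ T', F (nb G T' y)) R T := rfl

private theorem lv_pascal (a : ℕ → ℝ) (j : ℕ) :
    ∑ t ∈ range (j + 1), (j.choose t : ℝ) * (a (t + 1) + a t) =
      ∑ t ∈ range (j + 2), ((j + 1).choose t : ℝ) * a t := by
  rw [sum_range_succ' (fun t => ((j + 1).choose t : ℝ) * a t) (j + 1)]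
  have h1 : ∑ t ∈ range (j + 1), ((j + 1).choose (t + 1) : ℝ) * a (t + 1) =
      ∑ t ∈ range (j + 1), (j.choose t : ℝ) * a (t + 1) +
        ∑ t ∈ range (j + 1), (j.choose (t + 1) : ℝ) * a (t + 1) := by
    rw [← sum_add_distrib]
    refine sum_congr rfl fun t _ => ?_
    rw [Nat.choose_succ_succ, Nat.cast_add, add_mul]
  have h2 : ∑ t ∈ range (j + 1), (j.choose (t + 1) : ℝ) * a (t + 1) +
      ((j + 1).choose 0 : ℝ) * a 0 = ∑ t ∈ range (j + 1), (j.choose t : ℝ) * a t := by
    have h3 := sum_range_succ' (fun t => (j.choose t : ℝ) * a t) (j + 1)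
    have h4 := sum_range_succ (fun t => (j.choose t : ℝ) * a t) (j + 1)
    rw [Nat.choose_succ_self, Nat.cast_zero, zero_mul, add_zero] at h4
    rw [← h4, h3, Nat.choose_zero_right, Nat.choose_zero_right]
  rw [h1, add_assoc, h2, ← sum_add_distrib]
  refine sum_congr rfl fun t _ => ?_
  rw [mul_add]

theorem lv_split (m : ℕ) (F : Finset V → ℝ) (R T : Finset V) (h : T ⊆ R) :
    lv G m F R T = ∑ l ∈ range (m + 1),
      (m.choose l : ℝ) * lv G l (fun T' => lv G (m - l) F T' T') (R \ T) T := by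
  induction m generalizing R T with
  | zero =>
    rw [sum_range_one, Nat.choose_self, Nat.cast_one, one_mul]
    rfl
  | succ m ih =>
    have hsd : ∀ y, nb G R y \ nb G T y = nb G (R \ T) y := by
      intro y
      ext z
      simp only [nb, mem_sdiff, mem_filter]
      tauto
    have hsub : ∀ y, nb G T y ⊆ nb G R y := fun y => filter_subset_filter _ h
    calc lv G (m + 1) F R T = ∑ y ∈ R, lv G m F (nb G R y) (nb G T y) := rfl
      _ = ∑ y ∈ R, ∑ l ∈ range (m + 1), (m.choose l : ℝ) *
            lv G l (fun T' => lv G (m - l) F T' T') (nb G (R \ T) y) (nb G T y) := by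
          refine sum_congr rfl fun y _ => ?_
          rw [ih (nb G R y) (nb G T y) (hsub y), hsd y]
      _ = ∑ l ∈ range (m + 1), (m.choose l : ℝ) * ∑ y ∈ R,
            lv G l (fun T' => lv G (m - l) F T' T') (nb G (R \ T) y) (nb G T y) := by
          rw [sum_comm]
          exact sum_congr rfl fun l _ => (mul_sum _ _ _).symm
      _ = ∑ l ∈ range (m + 1), (m.choose l : ℝ) *
            (lv G (l + 1) (fun T' => lv G (m + 1 - (l + 1)) F T' T') (R \ T) T +
              lv G l (fun T' => lv G (m + 1 - l) F T' T') (R \ T) T) := by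
          refine sum_congr rfl fun l hl => ?_
          have hl' : l ≤ m := Nat.lt_succ_iff.1 (mem_range.1 hl)
          have e1 : m + 1 - (l + 1) = m - l := by omega
          have e2 : m + 1 - l = m - l + 1 := by omega
          rw [e1, e2, ← sum_sdiff h]
          have e3 : ∑ y ∈ T, lv G l (fun T' => lv G (m - l) F T' T') (nb G (R \ T) y) (nb G T y) =
              lv G l (fun T' => lv G (m - l + 1) F T' T') (R \ T) T :=
            lv_comm G l (fun T' => lv G (m - l) F T' T') (R \ T) T
          rw [e3]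
          rfl
      _ = ∑ l ∈ range (m + 1 + 1), ((m + 1).choose l : ℝ) *
            lv G l (fun T' => lv G (m + 1 - l) F T' T') (R \ T) T :=
          lv_pascal (fun l => lv G l (fun T' => lv G (m + 1 - l) F T' T') (R \ T) T) m

theorem lv_mono (l : ℕ) (F F' : Finset V → ℝ) (R T : Finset V)
    (h : ∀ T' ⊆ T, F T' ≤ F' T') : lv G l F R T ≤ lv G l F' R T := by
  induction l generalizing R T with
  | zero => exact h T (Subset.refl T)
  | succ l ih =>
    exact sum_le_sum fun y _ => ih (nb G R y) (nb G T y)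
      fun T' hT' => h T' (hT'.trans (filter_subset _ _))

theorem lv_congr (l : ℕ) (F F' : Finset V → ℝ) (R T : Finset V)
    (h : ∀ T' ⊆ T, F T' = F' T') : lv G l F R T = lv G l F' R T := by
  induction l generalizing R T with
  | zero => exact h T (Subset.refl T)
  | succ l ih =>
    exact sum_congr rfl fun y _ => ih (nb G R y) (nb G T y)
      fun T' hT' => h T' (hT'.trans (filter_subset _ _))

theorem lv_sum {α : Type*} (l : ℕ) (s : Finset α) (a : α → ℝ) (F : α → Finset V → ℝ)
    (R T : Finset V) :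
    lv G l (fun T' => ∑ i ∈ s, a i * F i T') R T = ∑ i ∈ s, a i * lv G l (F i) R T := by
  induction l generalizing R T with
  | zero => rfl
  | succ l ih =>
    calc lv G (l + 1) (fun T' => ∑ i ∈ s, a i * F i T') R T
        = ∑ y ∈ R, lv G l (fun T' => ∑ i ∈ s, a i * F i T') (nb G R y) (nb G T y) := rfl
      _ = ∑ y ∈ R, ∑ i ∈ s, a i * lv G l (F i) (nb G R y) (nb G T y) :=
          sum_congr rfl fun y _ => ih _ _
      _ = ∑ i ∈ s, ∑ y ∈ R, a i * lv G l (F i) (nb G R y) (nb G T y) := sum_comm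
      _ = ∑ i ∈ s, a i * lv G (l + 1) (F i) R T :=
          sum_congr rfl fun i _ => (mul_sum _ _ _).symm

theorem lv_nonneg (l : ℕ) (F : Finset V → ℝ) (R T : Finset V)
    (h : ∀ T', 0 ≤ F T') : 0 ≤ lv G l F R T := by
  induction l generalizing R T with
  | zero => exact h T
  | succ l ih => exact sum_nonneg fun y _ => ih (nb G R y) (nb G T y)

end MP5cc280.Nm.Sf
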