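import Pool.Agent.H.MP_5cc280_co.Sf.Lv

namespace MP5cc280.Nm.Sf

open Finset SimpleGraph

variable {V : Type*} [DecidableEq V] (G : SimpleGraph V) [DecidableRel G.Adj]

private theorem ni_nb_nb (S : Finset V) (x y : V) :
    nb G (nb G S x) y = nb G (nb G S y) x := by
  ext w
  simp only [nb, mem_filter]
  tauto

private theorem ni_nb_nn (S : Finset V) (x y : V) :
    nb G (nn G S x) y = nn G (nb G S y) x := by
  ext w
  simp only [nb, nn, mem_filter]
  tauto

private theorem ni_sdiff (S : Finset V) (x : V) : S \ nb G S x = nn G S x := by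
  ext w
  simp only [nb, nn, mem_filter, mem_sdiff]
  tauto

private theorem ni_sub (S : Finset V) (x : V) : nb G S x ⊆ S := filter_subset _ _

private theorem ni_swap (S : Finset V) (f : V → V → ℝ) :
    ∑ x ∈ S, ∑ y ∈ nb G S x, f x y = ∑ y ∈ S, ∑ x ∈ nb G S y, f x y := by
  refine sum_comm' ?_
  intro x y
  simp only [nb, mem_filter, G.adj_comm x y]
  tauto

private theorem ni_lv_succ {F : ℕ → Finset V → ℝ} (hF : Nice G F) (l q : ℕ) (R T : Finset V) :
    lv G l (F (q + 1)) R T = ∑ y ∈ T, lv G l (F q) (nb G R y) (nb G T y) := by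
  rw [lv_comm]
  congr 1
  funext T'
  exact hF q T'

private theorem ni_stepN {F : ℕ → Finset V → ℝ} (hF : Nice G F) (l : ℕ) :
    Nice G (fun q S => ∑ x ∈ S, lv G l (F q) (nn G S x) (nb G S x)) := by
  intro q S
  show ∑ x ∈ S, lv G l (F (q + 1)) (nn G S x) (nb G S x) =
    ∑ z ∈ S, ∑ x ∈ nb G S z, lv G l (F q) (nn G (nb G S z) x) (nb G (nb G S z) x)
  rw [← ni_swap G S (fun x z => lv G l (F q) (nn G (nb G S z) x) (nb G (nb G S z) x))]
  refine sum_congr rfl fun x _ => ?_
  rw [ni_lv_succ G hF]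
  refine sum_congr rfl fun y _ => ?_
  rw [ni_nb_nn, ni_nb_nb G S x y]

private theorem ni_stepS {F : ℕ → Finset V → ℝ} (hF : Nice G F) (l : ℕ) :
    Nice G (fun q S => ∑ x ∈ S, lv G l (F q) S (nb G S x)) := by
  intro q S
  show ∑ x ∈ S, lv G l (F (q + 1)) S (nb G S x) =
    ∑ z ∈ S, ∑ x ∈ nb G S z, lv G l (F q) (nb G S z) (nb G (nb G S z) x)
  rw [← ni_swap G S (fun x z => lv G l (F q) (nb G S z) (nb G (nb G S z) x))]
  refine sum_congr rfl fun x _ => ?_
  rw [ni_lv_succ G hF]
  refine sum_congr rfl fun y _ => ?_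
  rw [ni_nb_nb G S x y]

private theorem ni_hh_nice : Nice G (fun q S => (hh G q S : ℝ)) := by
  intro q S
  show ((∑ x ∈ S, hh G q (nb G S x) : ℕ) : ℝ) = ∑ x ∈ S, (hh G q (nb G S x) : ℝ)
  push_cast
  rfl

theorem nice_diag {F : ℕ → Finset V → ℝ} (hF : Nice G F) (p q : ℕ) (T : Finset V) :
    lv G p (F q) T T = F (q + p) T := by
  induction p generalizing T with
  | zero => rfl
  | succ p ih =>
    show ∑ y ∈ T, lv G p (F q) (nb G T y) (nb G T y) = F (q + p + 1) T
    rw [hF (q + p) T]
    exact sum_congr rfl fun y _ => ih _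

theorem sf_nice (ms : List ℕ) : Nice G (fun q S => sf G ms q S) := by
  induction ms with
  | nil => exact ni_hh_nice G
  | cons m ms ih => exact ni_stepS G ih m

theorem ee_nice (t c : ℕ) : Nice G (fun f S => EE G f t c S) := by
  induction t generalizing c with
  | zero =>
    cases c with
    | zero => exact ni_hh_nice G
    | succ c =>
      intro q S
      simp only [EE]
      rw [sum_const_zero]
  | succ t ih =>
    intro q S
    simp only [EE]
    rw [sum_comm]
    refine sum_congr rfl fun l _ => ?_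
    rw [← sum_div]
    congr 1
    exact ni_stepN G (ih (c - l)) (l + 1) q S

theorem ee_nonneg (f t c : ℕ) (S : Finset V) : 0 ≤ EE G f t c S := by
  induction t generalizing c S with
  | zero =>
    cases c with
    | zero =>
      simp only [EE]
      exact Nat.cast_nonneg _
    | succ c =>
      simp only [EE]
      exact le_rfl
  | succ t ih =>
    simp only [EE]
    refine sum_nonneg fun l _ => div_nonneg ?_ (Nat.cast_nonneg _)
    exact sum_nonneg fun x _ => lv_nonneg G _ _ _ _ fun T' => ih _ _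

private theorem ni_hh (k : ℕ) (R T : Finset V) : lv G k (fun _ => 1) R T = (hh G k R : ℝ) := by
  induction k generalizing R T with
  | zero =>
    show (1 : ℝ) = ((1 : ℕ) : ℝ)
    norm_num
  | succ k ih =>
    show ∑ y ∈ R, lv G k (fun _ => 1) (nb G R y) (nb G T y) =
      ((∑ x ∈ R, hh G k (nb G R x) : ℕ) : ℝ)
    push_cast
    exact sum_congr rfl fun y _ => ih _ _

theorem hh_expand (k : ℕ) (S : Finset V) (x : V) :
    (hh G k S : ℝ) = ∑ l ∈ range (k + 1),
      (k.choose l : ℝ) * lv G l (fun T => (hh G (k - l) T : ℝ)) (nn G S x) (nb G S x) := by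
  rw [← ni_hh G k S (nb G S x), lv_split G k _ S (nb G S x) (ni_sub G S x), ni_sdiff]
  refine sum_congr rfl fun l _ => ?_
  congr 2
  funext T'
  exact ni_hh G _ _ _

theorem sf_expand (m : ℕ) (ms : List ℕ) (q : ℕ) (S : Finset V) :
    sf G (m :: ms) q S = sf G ms (q + m + 1) S + ∑ l ∈ range m, (m.choose (l + 1) : ℝ) *
      ∑ x ∈ S, lv G (l + 1) (fun T => sf G ms (q + (m - (l + 1))) T) (nn G S x) (nb G S x) := by
  have h1 : sf G (m :: ms) q S = ∑ l ∈ range (m + 1), (m.choose l : ℝ) *
      ∑ x ∈ S, lv G l (fun T => sf G ms (q + (m - l)) T) (nn G S x) (nb G S x) := by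
    show ∑ x ∈ S, lv G m (fun T => sf G ms q T) S (nb G S x) = _
    simp only [mul_sum]
    rw [sum_comm]
    refine sum_congr rfl fun x _ => ?_
    rw [lv_split G m _ S (nb G S x) (ni_sub G S x), ni_sdiff]
    refine sum_congr rfl fun l _ => ?_
    congr 2
    funext T'
    exact nice_diag G (sf_nice G ms) (m - l) q T'
  rw [h1, sum_range_succ', add_comm]
  congr 1
  rw [Nat.choose_zero_right, Nat.cast_one, one_mul]
  exact (sf_nice G ms (q + m) S).symm

end MP5cc280.Nm.Sf
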