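import Pool.Agent.H.MP_5cc280_co.Sf.Nice
import Pool.Agent.H.MP_5cc280_co.Nm.Ine

namespace MP5cc280.Nm.Sf

open Finset SimpleGraph

variable {V : Type*} [DecidableEq V] (G : SimpleGraph V) [DecidableRel G.Adj]

theorem pr_pascal (i : ℕ) (Z : ℕ → ℝ) :
    ∑ t ∈ range (i + 2), ((i + 1).choose t : ℝ) * Z t =
      ∑ t ∈ range (i + 1), (i.choose t : ℝ) * Z t +
        ∑ t ∈ range (i + 1), (i.choose t : ℝ) * Z (t + 1) := by
  have h1 : ∑ t ∈ range (i + 2), (i.choose t : ℝ) * Z t =
      ∑ t ∈ range (i + 1), (i.choose t : ℝ) * Z t := by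
    rw [sum_range_succ, Nat.choose_succ_self]
    simp
  rw [← h1, sum_range_succ', sum_range_succ' (fun t => (i.choose t : ℝ) * Z t) (i + 1)]
  have h2 : ∀ t ∈ range (i + 1), ((i + 1).choose (t + 1) : ℝ) * Z (t + 1) =
      (i.choose (t + 1) : ℝ) * Z (t + 1) + (i.choose t : ℝ) * Z (t + 1) := by
    intro t _
    rw [Nat.choose_succ_succ, Nat.cast_add]
    ring
  rw [sum_congr rfl h2, sum_add_distrib]
  simp
  ring

theorem pr_diag (k N : ℕ) (g : ℕ → ℕ → ℝ) (h0 : ∀ a b, 0 ≤ g a b)
    (hk : ∀ a b, k ≤ a → g a b = 0) :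
    ∑ c ∈ range N, ∑ l ∈ range (c + 1), g l (c - l) ≤
      ∑ l ∈ range k, ∑ c ∈ range N, g l c := by
  rw [sum_range_diag_flip]
  have h1 : ∑ m ∈ range N, ∑ c ∈ range (N - m), g m c ≤ ∑ m ∈ range N, ∑ c ∈ range N, g m c := by
    apply sum_le_sum
    intro m _
    apply sum_le_sum_of_subset_of_nonneg
    · intro c hc
      rw [mem_range] at hc ⊢
      omega
    · intro c _ _
      exact h0 m c
  refine h1.trans ?_
  have h2 : ∑ m ∈ range N, ∑ c ∈ range N, g m c ≤
      ∑ m ∈ range (max N k), ∑ c ∈ range N, g m c := by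
    apply sum_le_sum_of_subset_of_nonneg
    · intro c hc
      rw [mem_range] at hc ⊢
      omega
    · intro m _ _
      exact sum_nonneg fun c _ => h0 m c
  refine h2.trans (le_of_eq ?_)
  symm
  apply sum_subset
  · intro c hc
    rw [mem_range] at hc ⊢
    omega
  · intro m _ hm
    rw [mem_range] at hm
    apply sum_eq_zero
    intro c _
    exact hk m c (by omega)

theorem pr_df (k l n : ℕ) :
    (k.choose (l + 1) : ℝ) * ((k - (l + 1)).descFactorial n : ℝ) =
      (k.descFactorial (n + (l + 1)) : ℝ) / ((l + 1).factorial : ℝ) := by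
  have h := Nat.descFactorial_mul_descFactorial (n := k) (k := l + 1) (m := n + (l + 1)) (by omega)
  rw [Nat.add_sub_cancel, Nat.descFactorial_eq_factorial_mul_choose k (l + 1)] at h
  have hf : ((l + 1).factorial : ℝ) ≠ 0 := by positivity
  rw [eq_div_iff hf, ← h]
  push_cast
  ring

/-- The bound for one vertex. -/
theorem pr_one (i k N : ℕ) (S : Finset V) (x : V)
    (ih : ∀ (k : ℕ) (S : Finset V), ∑ t ∈ range (i + 1), (i.choose t : ℝ) *
      ∑ c ∈ range N, (k.descFactorial (t + c) : ℝ) *
      EE G (i + k - 2 * t - c) t c S ≤ (hh G i S : ℝ) * (hh G k S : ℝ)) :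
    (∑ t ∈ range (i + 1), (i.choose t : ℝ) * ∑ c ∈ range N, (k.descFactorial (t + c) : ℝ) *
      EE G (i + k - 2 * t - c) t c (nb G S x)) +
    ∑ l ∈ range k, ∑ t ∈ range (i + 1), (i.choose t : ℝ) * ∑ c ∈ range N,
      (k.descFactorial (t + c + (l + 1)) : ℝ) / ((l + 1).factorial : ℝ) *
        lv G (l + 1) (fun T => EE G (i + (k - (l + 1)) - 2 * t - c) t c T) (nn G S x) (nb G S x) ≤
    (hh G i (nb G S x) : ℝ) * (hh G k S : ℝ) := by
  have hx := hh_expand G k S x
  rw [sum_range_succ'] at hx
  rw [hx, mul_add, add_comm]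
  apply add_le_add
  · rw [mul_sum]
    apply sum_le_sum
    intro l _
    have h1 : lv G (l + 1) (fun T => ∑ t ∈ range (i + 1), (i.choose t : ℝ) *
        ∑ c ∈ range N, ((k - (l + 1)).descFactorial (t + c) : ℝ) *
        EE G (i + (k - (l + 1)) - 2 * t - c) t c T) (nn G S x) (nb G S x) ≤
        lv G (l + 1) (fun T => (hh G i (nb G S x) : ℝ) * (hh G (k - (l + 1)) T : ℝ))
          (nn G S x) (nb G S x) := by
      apply lv_mono
      intro T hT
      refine (ih (k - (l + 1)) T).trans ?_
      apply mul_le_mul_of_nonneg_right _ (Nat.cast_nonneg _)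
      exact_mod_cast hh_mono G i hT
    have h2 : lv G (l + 1) (fun T => (hh G i (nb G S x) : ℝ) * (hh G (k - (l + 1)) T : ℝ))
        (nn G S x) (nb G S x) = (hh G i (nb G S x) : ℝ) *
        lv G (l + 1) (fun T => (hh G (k - (l + 1)) T : ℝ)) (nn G S x) (nb G S x) := by
      have := lv_sum G (l + 1) ({0} : Finset ℕ) (fun _ => (hh G i (nb G S x) : ℝ))
        (fun _ T => (hh G (k - (l + 1)) T : ℝ)) (nn G S x) (nb G S x)
      simpa using this
    have h3 : lv G (l + 1) (fun T => ∑ t ∈ range (i + 1), (i.choose t : ℝ) *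
        ∑ c ∈ range N, ((k - (l + 1)).descFactorial (t + c) : ℝ) *
        EE G (i + (k - (l + 1)) - 2 * t - c) t c T) (nn G S x) (nb G S x) =
        ∑ t ∈ range (i + 1), (i.choose t : ℝ) * ∑ c ∈ range N,
          ((k - (l + 1)).descFactorial (t + c) : ℝ) *
          lv G (l + 1) (fun T => EE G (i + (k - (l + 1)) - 2 * t - c) t c T)
            (nn G S x) (nb G S x) := by
      rw [lv_sum G (l + 1) (range (i + 1)) (fun t => (i.choose t : ℝ))
        (fun t T => ∑ c ∈ range N, ((k - (l + 1)).descFactorial (t + c) : ℝ) *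
        EE G (i + (k - (l + 1)) - 2 * t - c) t c T)]
      apply sum_congr rfl
      intro t _
      rw [lv_sum G (l + 1) (range N) (fun c => ((k - (l + 1)).descFactorial (t + c) : ℝ))
        (fun c T => EE G (i + (k - (l + 1)) - 2 * t - c) t c T)]
    rw [h2, h3] at h1
    have h4 := mul_le_mul_of_nonneg_left h1 (Nat.cast_nonneg (α := ℝ) (k.choose (l + 1)))
    refine le_trans (le_of_eq ?_) (h4.trans (le_of_eq ?_))
    · rw [mul_sum]
      apply sum_congr rfl
      intro t _
      rw [mul_left_comm, mul_sum, mul_sum, mul_sum]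
      apply sum_congr rfl
      intro c _
      rw [← mul_assoc (k.choose (l + 1) : ℝ), pr_df]
    · ring
  · have h := ih k (nb G S x)
    simpa [lv] using h

/-- lower bound for products of two clique counts by the exact configurations -/
theorem hh_mul_ge (i k N : ℕ) (S : Finset V) :
    ∑ t ∈ range (i + 1), (i.choose t : ℝ) * ∑ c ∈ range N, (k.descFactorial (t + c) : ℝ) *
      EE G (i + k - 2 * t - c) t c S ≤ (hh G i S : ℝ) * (hh G k S : ℝ) := by
  induction i generalizing k S with
  | zero =>
    simp only [zero_add, range_one, sum_singleton, Nat.choose_self, Nat.cast_one, one_mul,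
      mul_zero, Nat.sub_zero, hh]
    rcases N with _ | N
    · simp
    · rw [sum_range_succ']
      have h0 : ∑ c ∈ range N, (k.descFactorial (c + 1) : ℝ) * EE G (k - (c + 1)) 0 (c + 1) S = 0 := by
        apply sum_eq_zero
        intro c _
        simp [EE]
      rw [h0]
      simp [EE]
  | succ i ih =>
    rw [pr_pascal i (fun t => ∑ c ∈ range N, (k.descFactorial (t + c) : ℝ) *
      EE G (i + 1 + k - 2 * t - c) t c S)]
    have hR : (hh G (i + 1) S : ℝ) * (hh G k S : ℝ) =
        ∑ x ∈ S, (hh G i (nb G S x) : ℝ) * (hh G k S : ℝ) := by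
      rw [← sum_mul]
      simp [hh]
    rw [hR]
    refine le_trans ?_ (sum_le_sum fun x _ => pr_one G i k N S x (fun k S => ih k S))
    rw [sum_add_distrib]
    apply add_le_add
    · rw [sum_comm]
      apply le_of_eq
      apply sum_congr rfl
      intro t ht
      rw [← mul_sum, sum_comm]
      congr 1
      apply sum_congr rfl
      intro c _
      rw [← mul_sum]
      rw [mem_range] at ht
      by_cases hc : 2 * t + c ≤ i + k
      · have e := ee_nice G t c (i + k - 2 * t - c) S
        simp only at e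
        rw [← e]
        congr 2
        omega
      · have : k.descFactorial (t + c) = 0 := Nat.descFactorial_eq_zero_iff_lt.2 (by omega)
        rw [this]
        simp
    · have hS : ∑ x ∈ S, ∑ l ∈ range k, ∑ t ∈ range (i + 1), (i.choose t : ℝ) * ∑ c ∈ range N,
          (k.descFactorial (t + c + (l + 1)) : ℝ) / ((l + 1).factorial : ℝ) *
          lv G (l + 1) (fun T => EE G (i + (k - (l + 1)) - 2 * t - c) t c T) (nn G S x)
            (nb G S x) =
          ∑ t ∈ range (i + 1), (i.choose t : ℝ) * ∑ l ∈ range k, ∑ c ∈ range N,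
          (k.descFactorial (t + c + (l + 1)) : ℝ) / ((l + 1).factorial : ℝ) *
          ∑ x ∈ S, lv G (l + 1) (fun T => EE G (i + (k - (l + 1)) - 2 * t - c) t c T) (nn G S x)
            (nb G S x) := by
        rw [sum_comm]
        simp_rw [mul_sum]
        rw [sum_congr rfl fun l _ => sum_comm]
        rw [sum_comm]
        apply sum_congr rfl
        intro t _
        apply sum_congr rfl
        intro l _
        rw [sum_comm]
      rw [hS]
      apply sum_le_sum
      intro t _
      apply mul_le_mul_of_nonneg_left _ (Nat.cast_nonneg _)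
      have hd := pr_diag k N (fun l c => (k.descFactorial (t + c + (l + 1)) : ℝ) /
          ((l + 1).factorial : ℝ) *
          ∑ x ∈ S, lv G (l + 1) (fun T => EE G (i + (k - (l + 1)) - 2 * t - c) t c T) (nn G S x)
            (nb G S x))
        (fun a b => mul_nonneg (by positivity) (sum_nonneg fun x _ =>
          lv_nonneg G _ _ _ _ fun T => ee_nonneg G _ _ _ _))
        (fun a b hab => by
          have : k.descFactorial (t + b + (a + 1)) = 0 :=
            Nat.descFactorial_eq_zero_iff_lt.2 (by omega)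
          simp only [this]
          simp)
      refine le_trans (le_of_eq ?_) hd
      apply sum_congr rfl
      intro c _
      simp only [EE]
      rw [mul_sum]
      apply sum_congr rfl
      intro l hl
      rw [mem_range] at hl
      have e1 : t + (c - l) + (l + 1) = t + 1 + c := by omega
      rw [e1]
      by_cases hlk : l + 1 ≤ k
      · have e2 : i + (k - (l + 1)) - 2 * t - (c - l) = i + 1 + k - 2 * (t + 1) - c := by omega
        rw [e2]
        ring
      · have : k.descFactorial (t + 1 + c) = 0 := Nat.descFactorial_eq_zero_iff_lt.2 (by omega)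
        rw [this]
        simp

end MP5cc280.Nm.Sf
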