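import Pool.Agent.H.MP_5cc280_co.Sf.Nice

namespace MP5cc280.Nm.Sf

open Finset SimpleGraph

private theorem tp_nb {V : Type*} [DecidableEq V] [DecidableRel (⊤ : SimpleGraph V).Adj]
    (S : Finset V) (x : V) : nb (⊤ : SimpleGraph V) S x = S.erase x := by
  ext y
  simp only [nb, mem_filter, mem_erase, top_adj]
  constructor
  · rintro ⟨h1, h2⟩
    exact ⟨h2.symm, h1⟩
  · rintro ⟨h1, h2⟩
    exact ⟨h2, h1.symm⟩

private theorem tp_nn {V : Type*} [DecidableEq V] [DecidableRel (⊤ : SimpleGraph V).Adj]
    (S : Finset V) (x : V) (hx : x ∈ S) : nn (⊤ : SimpleGraph V) S x = {x} := by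
  ext y
  simp only [nn, mem_filter, mem_singleton, top_adj, not_not]
  constructor
  · rintro ⟨_, h2⟩
    exact h2.symm
  · rintro rfl
    exact ⟨hx, rfl⟩

private theorem tp_sum {V : Type*} [DecidableEq V] (S : Finset V) (k : ℕ) :
    ∑ x ∈ S, (S.erase x).card.descFactorial k = S.card.descFactorial (k + 1) := by
  have h1 : ∑ x ∈ S, (S.erase x).card.descFactorial k = ∑ x ∈ S, (S.card - 1).descFactorial k := by
    refine sum_congr rfl fun x hx => ?_
    rw [card_erase_of_mem hx]
  rw [h1, sum_const, smul_eq_mul]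
  rcases Nat.eq_zero_or_pos S.card with h0 | hpos
  · rw [h0, zero_mul, Nat.zero_descFactorial_succ]
  · obtain ⟨c, hc⟩ : ∃ c, S.card = c + 1 := ⟨S.card - 1, by omega⟩
    rw [hc, Nat.add_sub_cancel, Nat.succ_descFactorial_succ]

private theorem tp_hh {V : Type*} [DecidableEq V] [DecidableRel (⊤ : SimpleGraph V).Adj] (k : ℕ) :
    ∀ S : Finset V, hh (⊤ : SimpleGraph V) k S = S.card.descFactorial k := by
  induction k with
  | zero =>
    intro S
    rw [Nat.descFactorial_zero]
    rfl
  | succ k ih =>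
    intro S
    rw [← tp_sum]
    change ∑ x ∈ S, hh (⊤ : SimpleGraph V) k (nb (⊤ : SimpleGraph V) S x) = _
    refine sum_congr rfl fun x _ => ?_
    rw [tp_nb, ih]

private theorem tp_es : ∀ (ms : List ℕ) (t : ℕ), ms.length < t → es ms t = 0 := by
  intro ms
  induction ms with
  | nil =>
    intro t ht
    obtain ⟨s, rfl⟩ : ∃ s, t = s + 1 := ⟨t - 1, by simp only [List.length_nil] at ht; omega⟩
    rfl
  | cons m ms ih =>
    intro t ht
    rw [List.length_cons] at ht
    obtain ⟨s, rfl⟩ : ∃ s, t = s + 1 := ⟨t - 1, by omega⟩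
    show es ms (s + 1) + m * es ms s = 0
    rw [ih (s + 1) (by omega), ih s (by omega), mul_zero, add_zero]

private theorem tp_lv {V : Type*} [DecidableEq V] [DecidableRel (⊤ : SimpleGraph V).Adj] (l : ℕ)
    (F : Finset V → ℝ) (S : Finset V) (x : V) (hx : x ∈ S) :
    lv (⊤ : SimpleGraph V) (l + 1) F (nn (⊤ : SimpleGraph V) S x) (nb (⊤ : SimpleGraph V) S x) =
      if l = 0 then F (S.erase x) else 0 := by
  rw [tp_nn S x hx, tp_nb]
  change ∑ y ∈ ({x} : Finset V), lv (⊤ : SimpleGraph V) l F
    (nb (⊤ : SimpleGraph V) ({x} : Finset V) y) (nb (⊤ : SimpleGraph V) (S.erase x) y) = _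
  rw [sum_singleton, tp_nb, tp_nb, erase_eq_of_notMem (notMem_erase x S)]
  have h1 : ({x} : Finset V).erase x = ∅ := by simp
  rw [h1]
  rcases l with _ | l
  · rw [if_pos rfl]
    rfl
  · rw [if_neg (by omega)]
    change ∑ y ∈ (∅ : Finset V), _ = _
    rw [sum_empty]

private theorem tp_second {V : Type*} [DecidableEq V] [DecidableRel (⊤ : SimpleGraph V).Adj]
    (m : ℕ) (F : ℕ → Finset V → ℝ) (S : Finset V) :
    ∑ l ∈ range m, (m.choose (l + 1) : ℝ) * ∑ x ∈ S, lv (⊤ : SimpleGraph V) (l + 1) (F l)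
      (nn (⊤ : SimpleGraph V) S x) (nb (⊤ : SimpleGraph V) S x) =
      m * ∑ x ∈ S, F 0 (S.erase x) := by
  rcases m with _ | m
  · simp
  · rw [sum_range_succ']
    have h1 : ∑ l ∈ range m, ((m + 1).choose (l + 1 + 1) : ℝ) * ∑ x ∈ S,
        lv (⊤ : SimpleGraph V) (l + 1 + 1) (F (l + 1)) (nn (⊤ : SimpleGraph V) S x)
          (nb (⊤ : SimpleGraph V) S x) = 0 := by
      refine sum_eq_zero fun l _ => ?_
      rw [sum_eq_zero, mul_zero]
      intro x hx
      rw [tp_lv _ _ _ _ hx, if_neg (by omega)]
    rw [h1, zero_add, zero_add, Nat.choose_one_right]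
    congr 1
    refine sum_congr rfl fun x hx => ?_
    have h2 := tp_lv 0 (F 0) S x hx
    rw [if_pos rfl] at h2
    exact h2

theorem sf_top {V : Type*} [DecidableEq V] [DecidableRel (⊤ : SimpleGraph V).Adj] (ms : List ℕ)
    (q : ℕ) (S : Finset V) :
    sf (⊤ : SimpleGraph V) ms q S = ∑ t ∈ range (ms.length + 1), (es ms t : ℝ) *
      (S.card.descFactorial (q + ms.length + ms.sum - t) : ℝ) := by
  induction ms generalizing q S with
  | nil =>
    change ((hh (⊤ : SimpleGraph V) q S : ℕ) : ℝ) = _
    rw [tp_hh]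
    simp [es]
  | cons m ms ih =>
    rw [sf_expand, tp_second m (fun l T => sf (⊤ : SimpleGraph V) ms (q + (m - (l + 1))) T) S, ih]
    have h2 : (m : ℝ) * ∑ x ∈ S, sf (⊤ : SimpleGraph V) ms (q + (m - (0 + 1))) (S.erase x) =
        m * ∑ t ∈ range (ms.length + 1), (es ms t : ℝ) *
          (S.card.descFactorial (q + m + ms.length + ms.sum - t) : ℝ) := by
      rcases m with _ | m
      · simp
      · congr 1
        have h3 : ∀ x ∈ S, sf (⊤ : SimpleGraph V) ms (q + (m + 1 - (0 + 1))) (S.erase x) =
            ∑ t ∈ range (ms.length + 1), (es ms t : ℝ) *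
              ((S.erase x).card.descFactorial (q + m + ms.length + ms.sum - t) : ℝ) := by
          intro x _
          rw [ih]
          have e : q + (m + 1 - (0 + 1)) = q + m := by omega
          rw [e]
        rw [sum_congr rfl h3, sum_comm]
        refine sum_congr rfl fun t ht => ?_
        rw [mem_range] at ht
        rw [← mul_sum]
        congr 1
        have h4 := tp_sum S (q + m + ms.length + ms.sum - t)
        have e : q + m + ms.length + ms.sum - t + 1 = q + (m + 1) + ms.length + ms.sum - t := by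
          omega
        rw [e] at h4
        exact_mod_cast h4
    rw [h2, List.length_cons, List.sum_cons, sum_range_succ' _ (ms.length + 1)]
    have h5 : ∑ t ∈ range (ms.length + 1), (es ms t : ℝ) *
        (S.card.descFactorial (q + m + 1 + ms.length + ms.sum - t) : ℝ) =
        ∑ t ∈ range (ms.length + 1), (es ms (t + 1) : ℝ) *
          (S.card.descFactorial (q + m + 1 + ms.length + ms.sum - (t + 1)) : ℝ) +
          (es ms 0 : ℝ) * (S.card.descFactorial (q + m + 1 + ms.length + ms.sum - 0) : ℝ) := by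
      rw [← sum_range_succ' (fun t => (es ms t : ℝ) *
        (S.card.descFactorial (q + m + 1 + ms.length + ms.sum - t) : ℝ)), sum_range_succ _ (ms.length + 1),
        tp_es ms (ms.length + 1) (by omega)]
      simp
    rw [h5, mul_sum, add_right_comm, ← sum_add_distrib]
    congr 1
    · refine sum_congr rfl fun t _ => ?_
      have e1 : q + m + 1 + ms.length + ms.sum - (t + 1) = q + m + ms.length + ms.sum - t := by
        omega
      have e2 : q + (ms.length + 1) + (m + ms.sum) - (t + 1) = q + m + ms.length + ms.sum - t := by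
        omega
      have e3 : es (m :: ms) (t + 1) = es ms (t + 1) + m * es ms t := rfl
      rw [e1, e2, e3]
      push_cast
      ring
    · have e1 : q + m + 1 + ms.length + ms.sum - 0 = q + (ms.length + 1) + (m + ms.sum) - 0 := by
        omega
      have e2 : es (m :: ms) 0 = es ms 0 := by
        cases ms <;> rfl
      rw [e1, e2]

end MP5cc280.Nm.Sf
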