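import Pool.Agent.H.MP_5cc280_co.Sf.Lo
import Pool.Agent.H.MP_5cc280_co.Sf.Pr
import Pool.Agent.H.MP_5cc280_co.Sf.Tp
import Pool.Agent.H.MP_5cc280_co.Sf.Al
import Pool.Agent.H.MP_5cc280_co.Sf.Ho

namespace MP5cc280.Nm.Sf

open Finset SimpleGraph

private theorem su_mono {a b : ℕ} (h : a ≤ b) (c : ℕ) :
    a.descFactorial c ≤ b.descFactorial c := by
  induction c with
  | zero => exact le_refl _
  | succ c ih =>
    rw [Nat.descFactorial_succ, Nat.descFactorial_succ]
    exact Nat.mul_le_mul (by omega) ih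

private theorem su_add (n t c : ℕ) :
    n.descFactorial (t + c) = n.descFactorial t * (n - t).descFactorial c := by
  have h := Nat.descFactorial_mul_descFactorial (k := t) (m := t + c) (n := n) (by omega)
  rw [Nat.add_sub_cancel_left] at h
  rw [← h, mul_comm]

private theorem su_len (ms : List ℕ) (hpos : ∀ m ∈ ms, 1 ≤ m) : ms.length ≤ ms.sum := by
  induction ms with
  | nil => exact le_refl _
  | cons m ms ih =>
    have h1 := hpos m (List.mem_cons_self)
    have h2 := ih (fun x hx => hpos x (List.mem_cons_of_mem _ hx))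
    rw [List.length_cons, List.sum_cons]
    omega

section

variable {V : Type*} [DecidableEq V] (G : SimpleGraph V) [DecidableRel G.Adj]

theorem sf_le_prod (ms : List ℕ) (hpos : ∀ m ∈ ms, 1 ≤ m) (q : ℕ) (al : ℕ → ℝ)
    (h0 : ∀ i, 0 ≤ al i)
    (hal : ∀ t ≤ ms.length, ∑ i ∈ range (ms.length + 1),
      al i * ((i.choose t : ℝ) * ((q + ms.length + ms.sum - i).descFactorial t : ℝ)) =
        (es ms t : ℝ)) (S : Finset V) :
    sf G ms q S ≤ ∑ i ∈ range (ms.length + 1), al i *
      ((hh G i S : ℝ) * (hh G (q + ms.length + ms.sum - i) S : ℝ)) := by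
  have h1 := sf_le G ms hpos q (ms.sum + 1) ms.sum (le_refl _) (Nat.lt_succ_self _) S
  refine h1.trans ?_
  set a := q + ms.length + ms.sum with ha
  set j := ms.length with hj
  set K := ms.sum with hK
  calc ∑ t ∈ range (j + 1), (es ms t : ℝ) * ∑ c ∈ range (K + 1),
        ((K - t).descFactorial c : ℝ) * EE G (a - 2 * t - c) t c S
      = ∑ t ∈ range (j + 1), (∑ i ∈ range (j + 1),
          al i * ((i.choose t : ℝ) * ((a - i).descFactorial t : ℝ))) * ∑ c ∈ range (K + 1),
            ((K - t).descFactorial c : ℝ) * EE G (a - 2 * t - c) t c S := by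
        refine sum_congr rfl fun t ht => ?_
        rw [hal t (by have := mem_range.1 ht; omega)]
    _ = ∑ i ∈ range (j + 1), al i * ∑ t ∈ range (j + 1), (i.choose t : ℝ) *
          ∑ c ∈ range (K + 1), (((a - i).descFactorial t : ℝ) * ((K - t).descFactorial c : ℝ)) *
            EE G (a - 2 * t - c) t c S := by
        rw [sum_congr rfl (fun t _ => sum_mul _ _ _), sum_comm]
        refine sum_congr rfl fun i _ => ?_
        rw [mul_sum]
        refine sum_congr rfl fun t _ => ?_
        rw [mul_sum, mul_sum, mul_sum]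
        refine sum_congr rfl fun c _ => ?_
        ring
    _ ≤ ∑ i ∈ range (j + 1), al i * ((hh G i S : ℝ) * (hh G (a - i) S : ℝ)) := by
        refine sum_le_sum fun i hi => mul_le_mul_of_nonneg_left ?_ (h0 i)
        have hi' := mem_range.1 hi
        refine le_trans ?_ (hh_mul_ge G i (a - i) (K + 1) S)
        have e1 : ∑ t ∈ range (i + 1), (i.choose t : ℝ) * ∑ c ∈ range (K + 1),
            ((a - i).descFactorial (t + c) : ℝ) * EE G (i + (a - i) - 2 * t - c) t c S =
            ∑ t ∈ range (j + 1), (i.choose t : ℝ) * ∑ c ∈ range (K + 1),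
            ((a - i).descFactorial (t + c) : ℝ) * EE G (a - 2 * t - c) t c S := by
          rw [show i + (a - i) = a by omega]
          refine Finset.sum_subset (fun t ht => mem_range.2 (by
            have := mem_range.1 ht; omega)) ?_
          intro t _ ht
          have ht' : i < t := by
            by_contra hc
            exact ht (mem_range.2 (by omega))
          rw [Nat.choose_eq_zero_of_lt ht']
          simp
        rw [e1]
        refine sum_le_sum fun t ht => mul_le_mul_of_nonneg_left ?_ (by positivity)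
        refine sum_le_sum fun c _ => mul_le_mul_of_nonneg_right ?_ (ee_nonneg G _ _ _ _)
        have h3 : (a - i).descFactorial t * (K - t).descFactorial c ≤
            (a - i).descFactorial (t + c) := by
          rw [su_add]
          exact Nat.mul_le_mul_left _ (su_mono (by omega) c)
        exact_mod_cast h3

end

theorem sf_top_prod {V : Type*} [DecidableEq V] [DecidableRel (⊤ : SimpleGraph V).Adj]
    (ms : List ℕ) (hpos : ∀ m ∈ ms, 1 ≤ m) (q : ℕ) (al : ℕ → ℝ)
    (hal : ∀ t ≤ ms.length, ∑ i ∈ range (ms.length + 1),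
      al i * ((i.choose t : ℝ) * ((q + ms.length + ms.sum - i).descFactorial t : ℝ)) =
        (es ms t : ℝ)) (S : Finset V) :
    sf (⊤ : SimpleGraph V) ms q S = ∑ i ∈ range (ms.length + 1), al i *
      ((S.card.descFactorial i : ℝ) *
        (S.card.descFactorial (q + ms.length + ms.sum - i) : ℝ)) := by
  rw [sf_top]
  have hlen := su_len ms hpos
  set a := q + ms.length + ms.sum with ha
  set j := ms.length with hj
  set K := ms.sum with hK
  set m := S.card with hm
  have h1 : ∀ i ∈ range (j + 1), ((m.descFactorial i : ℝ) * (m.descFactorial (a - i) : ℝ)) =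
      ∑ t ∈ range (j + 1), (i.choose t : ℝ) * ((a - i).descFactorial t : ℝ) *
        (m.descFactorial (a - t) : ℝ) := by
    intro i hi
    have hi' := mem_range.1 hi
    have h2 := desc_prod i (a - i) m (by omega)
    have h3 : ∑ t ∈ range (i + 1), i.choose t * (a - i).descFactorial t *
        m.descFactorial (i + (a - i) - t) = ∑ t ∈ range (j + 1), i.choose t *
          (a - i).descFactorial t * m.descFactorial (a - t) := by
      rw [show i + (a - i) = a by omega]
      refine Finset.sum_subset (fun t ht => mem_range.2 (by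
        have := mem_range.1 ht; omega)) ?_
      intro t _ ht
      have ht' : i < t := by
        by_contra hc
        exact ht (mem_range.2 (by omega))
      rw [Nat.choose_eq_zero_of_lt ht']
      simp
    rw [h3] at h2
    exact_mod_cast h2.symm
  rw [sum_congr rfl (fun i hi => by rw [h1 i hi] : ∀ i ∈ range (j + 1), al i *
    ((m.descFactorial i : ℝ) * (m.descFactorial (a - i) : ℝ)) = al i *
      ∑ t ∈ range (j + 1), (i.choose t : ℝ) * ((a - i).descFactorial t : ℝ) *
        (m.descFactorial (a - t) : ℝ))]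
  simp only [mul_sum]
  rw [sum_comm]
  refine sum_congr rfl fun t ht => ?_
  rw [← hal t (by have := mem_range.1 ht; omega), sum_mul]
  refine sum_congr rfl fun i _ => ?_
  ring

private theorem su_term {V : Type} [Fintype V] [DecidableEq V] (G : SimpleGraph V)
    [DecidableRel G.Adj] {i k u r Δ : ℕ} (hu : 1 ≤ u) (huk : u ≤ k + 1)
    (hf : G.CliqueFree (r + 2)) (hΔ : ∀ v, G.degree v ≤ Δ) :
    (∑ v, hh G i (nb G univ v) * hh G k (nb G univ v)) *
        ((r + 1).choose u * r ^ (i + k + 1 - u)) ≤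
      (r + 1) * (r.descFactorial i * r.descFactorial k) *
        Δ ^ (i + k + 1 - u) * kk G u := by
  obtain ⟨u', rfl⟩ : ∃ u', u = u' + 1 := ⟨u - 1, by omega⟩
  obtain ⟨b, hb⟩ : ∃ b, k + 1 = u' + 1 + b := ⟨k + 1 - (u' + 1), by omega⟩
  have he : i + k + 1 - (u' + 1) = i + b := by omega
  have hm := main_bound hf hΔ u' b
  rw [← hb] at hm
  have h1 : ∀ v : V, hh G i (nb G univ v) * r ^ i ≤
      r.descFactorial i * Δ ^ i := fun v => hh_nb_le G hf hΔ i v
  have h2 : ∑ v, hh G k (nb G univ v) = (k + 1).factorial * kk G (k + 1) := by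
    rw [← hh_univ G (k + 1)]
    rfl
  have h3 : (k + 1).factorial * (r + 1).choose (k + 1) = (r + 1) * r.descFactorial k := by
    rw [← Nat.descFactorial_eq_factorial_mul_choose, Nat.succ_descFactorial_succ]
  calc (∑ v, hh G i (nb G univ v) * hh G k (nb G univ v)) *
        ((r + 1).choose (u' + 1) * r ^ (i + k + 1 - (u' + 1)))
      = (∑ v, (hh G i (nb G univ v) * r ^ i) * hh G k (nb G univ v)) *
        ((r + 1).choose (u' + 1) * r ^ b) := by
        rw [he, pow_add, sum_mul, sum_mul]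
        refine sum_congr rfl fun v _ => ?_
        ring
    _ ≤ (∑ v, (r.descFactorial i * Δ ^ i) * hh G k (nb G univ v)) *
        ((r + 1).choose (u' + 1) * r ^ b) := by
        refine Nat.mul_le_mul_right _ (sum_le_sum fun v _ => ?_)
        exact Nat.mul_le_mul_right _ (h1 v)
    _ = (r.descFactorial i * Δ ^ i) * (k + 1).factorial *
        (kk G (k + 1) * (r + 1).choose (u' + 1) * r ^ b) := by
        rw [← mul_sum, h2]
        ring
    _ ≤ (r.descFactorial i * Δ ^ i) * (k + 1).factorial *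
        ((r + 1).choose (k + 1) * Δ ^ b * kk G (u' + 1)) := Nat.mul_le_mul_left _ hm
    _ = (r.descFactorial i * Δ ^ i) * ((k + 1).factorial * (r + 1).choose (k + 1)) *
        (Δ ^ b * kk G (u' + 1)) := by ring
    _ = _ := by
        rw [h3, he, pow_add]
        ring

theorem sum_sf_le {V : Type} [Fintype V] [DecidableEq V] (G : SimpleGraph V) [DecidableRel G.Adj]
    {ms : List ℕ} {q u r Δ : ℕ} (hpos : ∀ m ∈ ms, 1 ≤ m) (hq : 1 ≤ q) (hu : 1 ≤ u)
    (huq : u ≤ q + 1) (hf : G.CliqueFree (r + 2)) (hΔ : ∀ v, G.degree v ≤ Δ) :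
    (∑ v, sf G ms q (nb G univ v)) *
        ((r + 1).choose u * (r : ℝ) ^ (q + ms.length + ms.sum + 1 - u)) ≤
      ((r : ℝ) + 1) * sf (⊤ : SimpleGraph (Fin r)) ms q univ *
        (Δ : ℝ) ^ (q + ms.length + ms.sum + 1 - u) * kk G u := by
  obtain ⟨al, h0, hal⟩ := exists_al ms hpos q hq
  rw [sf_top_prod ms hpos q al hal]
  have hsp := fun v : V => sf_le_prod G ms hpos q al h0 hal (nb G univ v)
  set a := q + ms.length + ms.sum with ha
  set j := ms.length with hj
  have h1 : (∑ v, sf G ms q (nb G univ v)) ≤ ∑ i ∈ range (j + 1), al i *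
      ∑ v, (hh G i (nb G univ v) : ℝ) * (hh G (a - i) (nb G univ v) : ℝ) := by
    refine (sum_le_sum fun v _ => hsp v).trans (le_of_eq ?_)
    rw [sum_comm]
    refine sum_congr rfl fun s _ => ?_
    rw [mul_sum]
  have hp : (0 : ℝ) ≤ ((r + 1).choose u * (r : ℝ) ^ (a + 1 - u)) := by positivity
  refine (mul_le_mul_of_nonneg_right h1 hp).trans ?_
  simp only [card_univ, Fintype.card_fin]
  rw [mul_sum, sum_mul, sum_mul, sum_mul]
  refine sum_le_sum fun i hi => ?_
  have hi' := mem_range.1 hi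
  have h2 := su_term G (i := i) (k := a - i) (u := u) (r := r) (Δ := Δ) hu (by omega) hf hΔ
  rw [show i + (a - i) + 1 - u = a + 1 - u by omega] at h2
  have h3 : (∑ v, (hh G i (nb G univ v) : ℝ) * (hh G (a - i) (nb G univ v) : ℝ)) *
        (((r + 1).choose u : ℝ) * (r : ℝ) ^ (a + 1 - u)) ≤
      ((r : ℝ) + 1) * ((r.descFactorial i : ℝ) * (r.descFactorial (a - i) : ℝ)) *
        (Δ : ℝ) ^ (a + 1 - u) * (kk G u : ℝ) := by
    exact_mod_cast h2
  calc al i * (∑ v, (hh G i (nb G univ v) : ℝ) *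
          (hh G (a - i) (nb G univ v) : ℝ)) *
        (((r + 1).choose u : ℝ) * (r : ℝ) ^ (a + 1 - u))
      = al i * ((∑ v, (hh G i (nb G univ v) : ℝ) *
          (hh G (a - i) (nb G univ v) : ℝ)) *
        (((r + 1).choose u : ℝ) * (r : ℝ) ^ (a + 1 - u))) := by ring
    _ ≤ al i * (((r : ℝ) + 1) * ((r.descFactorial i : ℝ) *
          (r.descFactorial (a - i) : ℝ)) *
        (Δ : ℝ) ^ (a + 1 - u) * (kk G u : ℝ)) :=
        mul_le_mul_of_nonneg_left h3 (h0 i)
    _ = _ := by ring

private theorem su_cliques {V : Type} [Fintype V] [DecidableEq V] (G : SimpleGraph V)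
    [DecidableRel G.Adj] (f : Finset V → ℝ) :
    ∑ Q ∈ G.cliqueFinset 1, f (cnb G Q) = ∑ v, f (nb G univ v) := by
  have h1 : G.cliqueFinset 1 = univ.map ⟨fun v : V => ({v} : Finset V),
      fun a b h => singleton_injective h⟩ := by
    ext Q
    rw [mem_cliqueFinset_iff, mem_map]
    constructor
    · intro h
      obtain ⟨a, ha⟩ := card_eq_one.1 h.2
      exact ⟨a, mem_univ _, ha.symm⟩
    · rintro ⟨a, _, rfl⟩
      refine ⟨?_, card_singleton a⟩
      intro x hx y hy hxy
      exact absurd ((mem_singleton.1 hx).trans (mem_singleton.1 hy).symm) hxy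
  rw [h1, sum_map]
  refine sum_congr rfl fun v _ => ?_
  congr 1
  ext x
  rw [mem_cnb, nb, mem_filter]
  change (∀ d ∈ ({v} : Finset V), G.Adj x d) ↔ _
  constructor
  · intro h
    exact ⟨mem_univ _, (h v (mem_singleton_self v)).symm⟩
  · intro h d hd
    rw [mem_singleton] at hd
    subst hd
    exact h.2.symm

private theorem su_hom {W : Type} [Fintype W] [DecidableEq W] {H : SimpleGraph W} {D : Finset W}
    {A : Set W} {u : ℕ} (hA : St H A) (hD : D.card = u)
    (hdom : ∀ v ∈ D, ∀ w, w ≠ v → H.Adj v w) (hu : 2 ≤ u) :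
    ∃ (d : W) (ms : List ℕ) (q : ℕ), (∀ v ∈ ({d} : Finset W), ∀ w, w ≠ v → H.Adj v w) ∧
      (∀ m ∈ ms, 1 ≤ m) ∧
      Fintype.card W = q + ms.length + ms.sum + 1 ∧ 1 ≤ q ∧ u ≤ q + 1 ∧
      ∀ (V : Type) [Fintype V] [DecidableEq V] (G : SimpleGraph V) [DecidableRel G.Adj]
        (S : Finset V), (Nat.card (HomsIn (rest H {d}) G S) : ℝ) = sf G ms q S := by
  have hne : D.Nonempty := card_pos.1 (by omega)
  obtain ⟨d, hd⟩ := hne
  have hSt : St (rest H {d}) {x | x.1 ∈ A} := by
    refine ⟨?_, ?_, ?_⟩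
    · intro a ha b hb hab
      exact hA.1 a.1 ha b.1 hb (fun h => hab (Subtype.ext h))
    · intro a ha b hb hab
      exact hA.2.1 a.1 ha b.1 hb (fun h => hab (Subtype.ext h))
    · intro b hb a ha c hc h1 h2
      exact Subtype.ext (hA.2.2 b.1 hb a.1 ha c.1 hc h1 h2)
  obtain ⟨ms, q, h0, h1, h2, h3⟩ := hom_sf _ (rest H {d}) _ hSt
  have hcr := card_rest (W := W) {d} (card_singleton d)
  have h4 : u - 1 ≤ q := by
    have h5 := h2 (D.subtype (fun w => w ∉ ({d} : Finset W))) (by
      intro v hv w hw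
      rw [mem_subtype] at hv
      exact hdom v.1 hv w.1 (fun h => hw (Subtype.ext h)))
    refine le_trans (le_of_eq ?_) h5
    rw [card_subtype]
    have h6 : D.filter (fun w => w ∉ ({d} : Finset W)) = D.erase d := by
      ext x
      simp only [mem_filter, mem_singleton, mem_erase]
      tauto
    rw [h6, card_erase_of_mem hd, hD]
  refine ⟨d, ms, q, ?_, h0, by omega, by omega, by omega, h3⟩
  intro v hv w hw
  rw [mem_singleton] at hv
  subst hv
  exact hdom v hd w hw

theorem copies_le_sf {W : Type} [Fintype W] [DecidableEq W] {H : SimpleGraph W} {D : Finset W}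
    {A : Set W} {u w Δ : ℕ} {V : Type} [Fintype V] [DecidableEq V] {G : SimpleGraph V}
    [DecidableRel G.Adj]
    (hA : St H A) (hD : D.card = u) (hdom : ∀ v ∈ D, ∀ w, w ≠ v → H.Adj v w) (hu : 2 ≤ u)
    (huw : u < w) (hf : G.CliqueFree (w + 1)) (hΔ : ∀ v, G.degree v ≤ Δ) :
    (G.copyCount H : ℝ) ≤ Lc H u w * (Δ : ℝ) ^ (Fintype.card W - u) * kk G u := by
  obtain ⟨d, ms, q, h1, h0, h2, h3, h4, h5⟩ := su_hom hA hD hdom hu
  obtain ⟨r, rfl⟩ : ∃ r, w = r + 1 := ⟨w - 1, by omega⟩
  have hr : (0 : ℝ) < r := by exact_mod_cast (by omega : 0 < r)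
  have haut : (0 : ℝ) < Nat.card (H ≃g H) := by exact_mod_cast aut_pos (H := H)
  have hch : (0 : ℝ) < ((r + 1).choose u : ℝ) := by exact_mod_cast Nat.choose_pos huw.le
  have c2 : (Nat.card (Copy H G) : ℝ) ≤ ∑ v, sf G ms q (nb G univ v) := by
    have c1 : (Nat.card (Copy H G) : ℝ) ≤
        ∑ Q ∈ G.cliqueFinset 1, (Nat.card (HomsIn (rest H {d}) G (cnb G Q)) : ℝ) := by
      have := card_copy_le (G := G) (card_singleton d) h1
      simp only [Nat.factorial_one, one_mul] at this
      exact_mod_cast this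
    refine c1.trans (le_of_eq ?_)
    rw [← su_cliques G (fun S => sf G ms q S)]
    exact sum_congr rfl fun Q _ => h5 V G _
  have c3 := sum_sf_le G (ms := ms) (q := q) (u := u) (r := r) (Δ := Δ) h0 h3 (by omega) h4 hf hΔ
  have c4 : (Nat.card (H →g (⊤ : SimpleGraph (Fin (r + 1)))) : ℝ) =
      ((r : ℝ) + 1) * sf (⊤ : SimpleGraph (Fin r)) ms q univ := by
    rw [card_col (card_singleton d) h1 (r + 1), Nat.descFactorial_one]
    have e1 : Nat.card (rest H {d} →g (⊤ : SimpleGraph (Fin (r + 1 - 1)))) =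
        Nat.card (HomsIn (rest H {d}) (⊤ : SimpleGraph (Fin r)) univ) :=
      Nat.card_congr
        ⟨fun f => ⟨fun i => f i, fun i => mem_univ _, fun a b hab => f.map_adj hab⟩,
          fun x => ⟨x.1, fun {a b} hab => x.2.2 a b hab⟩, fun f => rfl, fun x => rfl⟩
    rw [e1, ← h5 (Fin r) (⊤ : SimpleGraph (Fin r)) univ]
    push_cast
    ring
  have c5 : (Nat.card (Copy H G) : ℝ) = G.copyCount H * Nat.card (H ≃g H) := by
    exact_mod_cast card_copy (G := G) (H := H)
  have e2 : Fintype.card W - u = q + ms.length + ms.sum + 1 - u := by omega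
  unfold Lc
  rw [c4, e2]
  have hpos : (0 : ℝ) < (r + 1).choose u * (r : ℝ) ^ (q + ms.length + ms.sum + 1 - u) := by
    positivity
  have c6 := (mul_le_mul_of_nonneg_right c2 hpos.le).trans c3
  rw [c5] at c6
  have e3 : (((r + 1 : ℕ) : ℝ) - 1) = r := by push_cast; ring
  rw [e3, div_mul_eq_mul_div, div_mul_eq_mul_div, le_div_iff₀ (by positivity)]
  calc (G.copyCount H : ℝ) * (Nat.card (H ≃g H) * (r + 1).choose u *
        (r : ℝ) ^ (q + ms.length + ms.sum + 1 - u))
      = (G.copyCount H : ℝ) * Nat.card (H ≃g H) *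
        ((r + 1).choose u * (r : ℝ) ^ (q + ms.length + ms.sum + 1 - u)) := by ring
    _ ≤ _ := c6

/-- such a graph without `K_{w+1}` has a proper colouring with `w` colours -/
theorem sf_colorable {W : Type} [Fintype W] {H : SimpleGraph W} {A : Set W} {w : ℕ}
    (hA : St H A) (hf : H.CliqueFree (w + 1)) : H.Colorable w := by
  classical
  let C : Finset W := univ.filter (fun x => x ∈ A → ∀ b ∉ A, H.Adj x b)
  have hC : ∀ x, x ∈ C ↔ (x ∈ A → ∀ b ∉ A, H.Adj x b) := fun x => by simp [C]
  have hcl : H.IsClique (C : Set W) := by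
    intro x hx y hy hxy
    have hx' := (hC x).1 hx
    have hy' := (hC y).1 hy
    by_cases h1 : x ∈ A <;> by_cases h2 : y ∈ A
    · exact hA.1 x h1 y h2 hxy
    · exact hx' h1 y h2
    · exact (hy' h2 x h1).symm
    · exact hA.2.1 x h1 y h2 hxy
  have hcard : C.card ≤ w := by
    by_contra hlt
    exact (hf.mono (by omega : w + 1 ≤ C.card)) C ⟨hcl, rfl⟩
  have hch : ∀ x, ∃ y, y ∈ C ∧ (x ∈ C → y = x) ∧ (x ∉ C → x ∈ A ∧ y ∉ A ∧ ¬ H.Adj x y) := by
    intro x
    by_cases hx : x ∈ C
    · exact ⟨x, hx, fun _ => rfl, fun h => (h hx).elim⟩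
    · have hx' : ¬ (x ∈ A → ∀ b ∉ A, H.Adj x b) := fun h => hx ((hC x).2 h)
      push Not at hx'
      obtain ⟨h1, b, hb, hxb⟩ := hx'
      exact ⟨b, (hC b).2 (fun h => (hb h).elim), fun h => (hx h).elim, fun _ => ⟨h1, hb, hxb⟩⟩
  choose φ h1 h2 h3 using hch
  have e : Nonempty (C ↪ Fin w) := by
    rw [Function.Embedding.nonempty_iff_card_le, Fintype.card_fin, Fintype.card_coe]
    exact hcard
  obtain ⟨e⟩ := e
  refine ⟨⟨fun a => e ⟨φ a, h1 a⟩, fun {a b} hab => ?_⟩⟩
  intro h
  have h4 : φ a = φ b := congrArg Subtype.val (e.injective h)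
  by_cases ha : a ∈ C <;> by_cases hb : b ∈ C
  · rw [h2 a ha, h2 b hb] at h4
    exact hab.ne h4
  · rw [h2 a ha] at h4
    exact (h3 b hb).2.2 (h4 ▸ hab.symm)
  · rw [h2 b hb] at h4
    exact (h3 a ha).2.2 (h4 ▸ hab)
  · have h5 := hA.2.2 (φ a) (h3 a ha).2.1 a (h3 a ha).1 b (h3 b hb).1
      (fun h => (h3 a ha).2.2 h.symm) (fun h => (h3 b hb).2.2 (h4 ▸ h.symm))
    exact hab.ne h5

end MP5cc280.Nm.Sf
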